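import Pool.Agent.P.MP_ed12bb_co.G.Flat

/-!
The descent: a real spanning configuration with the numerical property of skew pairs has a
hyperplane containing exactly one element less than the dimension.
-/

namespace Pool.Agent.P.MP_ed12bb_co.G

open Submodule Module

variable {U : Type*} [AddCommGroup U] [Module ℝ U] {ι : Type*} [DecidableEq ι]
  [FiniteDimensional ℝ U]

/-- a vertex vanishing at no unexpected element -/
def Good (v : ι → U) (E : Finset ι) (lam : U) (L : Submodule ℝ U) (H : Finset ι)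
    (φ : Dual ℝ U) : Prop :=
  Vx v lam L H φ ∧ ∀ J ∈ E, J ∉ H → φ (v J) = 0 → v J ∈ L

/-- elements outside H have constant sign on the vertices -/
def Sign (v : ι → U) (E : Finset ι) (lam : U) (L : Submodule ℝ U) (H : Finset ι) : Prop :=
  ∀ J ∈ E, J ∉ H → (∀ ψ, Vx v lam L H ψ → 0 ≤ ψ (v J)) ∨ ∀ ψ, Vx v lam L H ψ → ψ (v J) ≤ 0

/-- states of the descent -/
structure St (v : ι → U) (E : Finset ι) (lam : U) (H T : Finset ι) : Prop where
  hH : H ⊆ E
  hT : T ⊆ E
  top : sp v T ⊔ sp v H = ⊤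
  disj : Disjoint (sp v T) (sp v H)
  light : (fl v E (sp v T)).card < finrank ℝ U
  sign : Sign v E lam (sp v T) H
  good : ∃ φ, Good v E lam (sp v T) H φ

omit [FiniteDimensional ℝ U] in
/-- the closest good vertex keeps the sign property -/
theorem sign_step {v : ι → U} {E H : Finset ι} {lam : U} {L : Submodule ℝ U}
    (hs : Sign v E lam L H) {e : ι} (he : e ∈ H) {u : Dual ℝ U} (hu : Good v E lam L H u)
    (hue : u (v e) ≠ 0)
    (hmin : ∀ w, Good v E lam L H w → w (v e) ≠ 0 → |u (v e)| ≤ |w (v e)|) :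
    Sign v E lam (L ⊔ sp v {e}) (zs v H u) := by
  have up : ∀ ψ, Vx v lam (L ⊔ sp v {e}) (zs v H u) ψ → Vx v lam L H ψ :=
    fun ψ hψ => hψ.mono (by simpa using he) (zs_subset _ _ _)
  intro J hJ hJG
  by_cases hJH : J ∈ H
  swap
  · exact (hs J hJ hJH).imp (fun h ψ hψ => h ψ (up ψ hψ)) (fun h ψ hψ => h ψ (up ψ hψ))
  have huJ : u (v J) ≠ 0 := fun h => hJG (mem_zs.2 ⟨hJH, h⟩)
  have key : ∀ ψ, Vx v lam (L ⊔ sp v {e}) (zs v H u) ψ → 0 ≤ u (v J) * ψ (v J) := by
    intro ψ hψ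
    by_contra hneg
    rw [not_le] at hneg
    have hψJ : ψ (v J) ≠ 0 := fun h => by simp [h] at hneg
    have hψe : ψ (v e) = 0 := hψ.le (mem_sup_right (mem_sp v (by simp)))
    have hden : u (v J) - ψ (v J) ≠ 0 := fun h => by
      rw [sub_eq_zero] at h
      rw [h] at hneg
      nlinarith [mul_self_nonneg (ψ (v J))]
    set τ := u (v J) / (u (v J) - ψ (v J)) with hτ
    have h1τ : 1 - τ = -ψ (v J) / (u (v J) - ψ (v J)) := by
      rw [hτ]; field_simp; ring
    have hsq : 0 < (u (v J) - ψ (v J)) ^ 2 := by positivity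
    have τ0 : 0 < τ := by
      have : τ = (u (v J) ^ 2 - u (v J) * ψ (v J)) / (u (v J) - ψ (v J)) ^ 2 := by
        rw [hτ]; field_simp
      rw [this]
      exact div_pos (by nlinarith [sq_nonneg (u (v J))]) hsq
    have τ1 : 0 < 1 - τ := by
      have : 1 - τ = (ψ (v J) ^ 2 - u (v J) * ψ (v J)) / (u (v J) - ψ (v J)) ^ 2 := by
        rw [h1τ]; field_simp; ring
      rw [this]
      exact div_pos (by nlinarith [sq_nonneg (ψ (v J))]) hsq
    set w : Dual ℝ U := (1 - τ) • u + τ • ψ with hw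
    have wa : ∀ x, w x = (1 - τ) * u x + τ * ψ x := fun x => by simp [hw]
    have wJ : w (v J) = 0 := by
      rw [wa, h1τ, hτ]; field_simp; ring
    have we : w (v e) = (1 - τ) * u (v e) := by rw [wa, hψe]; ring
    have hψ' := up ψ hψ
    have wv : Vx v lam L H w := by
      refine ⟨by rw [wa, hu.1.one, hψ.one]; ring, fun x hx => ?_, fun x hx => ?_⟩
      · have a1 : u x = 0 := hu.1.le hx
        have a2 : ψ x = 0 := hψ'.le hx
        simp [LinearMap.mem_ker, wa, a1, a2]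
      · set x' := x - (ψ x / ψ (v J)) • v J with hx'
        have b1 : ψ x' = 0 := by simp [hx', hψJ]
        have b2 : w x' = 0 := by
          have : w x = 0 := hx
          simp [hx', wJ, this]
        have b3 : u x' = 0 := by
          rw [wa, b1] at b2
          simpa [τ1.ne'] using b2
        have b4 := hψ.ker b1
        rw [sup_right_comm, sp_singleton] at b4
        obtain ⟨m, hm, z, hz, hsum⟩ := mem_sup.1 b4
        obtain ⟨c, rfl⟩ := mem_span_singleton.1 hz
        have b5 : L ⊔ sp v (zs v (zs v H u) ψ) ≤ LinearMap.ker u :=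
          sup_le hu.1.le (sp_le.2 fun y hy => (mem_zs.1 (mem_zs.1 hy).1).2)
        have b6 : u m = 0 := b5 hm
        have b7 : c = 0 := by
          rw [← hsum] at b3
          simpa [b6, hue] using b3
        have b8 : L ⊔ sp v (zs v (zs v H u) ψ) ≤ L ⊔ sp v (zs v H w) := by
          refine sup_le_sup_left (sp_mono v fun y hy => ?_) _
          obtain ⟨y1, y2⟩ := mem_zs.1 hy
          obtain ⟨y3, y4⟩ := mem_zs.1 y1
          exact mem_zs.2 ⟨y3, by rw [wa, y2, y4]; ring⟩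
        have b9 : x = m + (ψ x / ψ (v J)) • v J := by
          rw [b7, zero_smul, add_zero] at hsum
          rw [hsum, hx']; abel
        rw [b9]
        exact add_mem (b8 hm) (smul_mem _ _ (mem_sup_right (mem_sp v (mem_zs.2 ⟨hJH, wJ⟩))))
    have wg : Good v E lam L H w := by
      refine ⟨wv, fun J' hJ' hJ'H h0 => hu.2 J' hJ' hJ'H ?_⟩
      rw [wa] at h0
      rcases hs J' hJ' hJ'H with h | h
      · have a1 := h u hu.1
        have a2 := h ψ hψ'
        nlinarith [mul_nonneg τ0.le a2, mul_nonneg τ1.le a1]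
      · have a1 := h u hu.1
        have a2 := h ψ hψ'
        nlinarith [mul_nonneg τ0.le (neg_nonneg.2 a2), mul_nonneg τ1.le (neg_nonneg.2 a1)]
    have := hmin w wg (by rw [we]; exact mul_ne_zero τ1.ne' hue)
    rw [we, abs_mul, abs_of_pos τ1] at this
    nlinarith [abs_pos.2 hue]
  rcases lt_or_gt_of_ne huJ with h | h
  · exact Or.inr fun ψ hψ => by nlinarith [key ψ hψ]
  · exact Or.inl fun ψ hψ => by nlinarith [key ψ hψ]

theorem conn_mod {v : ι → U} {K : Finset ι} {L : Submodule ℝ U} (hd : Disjoint L (sp v K))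
    (hc : Conn v ⊥ K) : Conn v L K := by
  have e : ∀ A ⊆ K, rk v L A = finrank ℝ L + r v A := fun A hA => by
    have h1 := finrank_sup_add_finrank_inf_eq L (sp v A)
    rw [(hd.mono_right (sp_mono v hA)).eq_bot, finrank_bot] at h1
    exact h1
  intro A hA nA hne
  have := hc A hA nA hne
  simp only [rk_bot, finrank_bot] at this
  rw [e A hA, e K le_rfl, e _ Finset.sdiff_subset]
  omega

theorem step {v : ι → U} {E : Finset ι} {lam : U} (h0 : ∀ e ∈ E, v e ≠ 0) (hyp : Hyp v E)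
    (hg : Gen v lam ⊥ E) (hno : ∀ M, (fl v E M).card + 1 ≠ finrank ℝ U) {H T : Finset ι}
    (s : St v E lam H T) : ∃ K T', St v E lam K T' ∧ K.card < H.card := by
  obtain ⟨φ, hφ⟩ := s.good
  obtain ⟨e, he, hφe⟩ := Vx.exists_ne hφ.1.one hφ.1.le s.top
  obtain ⟨u, ⟨hu, hue⟩, hmin⟩ := Set.exists_min_image
    {w | Good v E lam (sp v T) H w ∧ w (v e) ≠ 0} (fun w => |w (v e)|)
    ((vx_finite v lam (sp v T) H).subset fun w hw => hw.1.1) ⟨φ, hφ, hφe⟩
  have hs := sign_step s.sign he hu hue fun w h1 h2 => hmin w ⟨h1, h2⟩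
  set G := zs v H u with hG
  set Z := zs v E u with hZ
  have hTZ : T ⊆ Z := fun x hx => mem_zs.2 ⟨s.hT hx, hu.1.le (mem_sp v hx)⟩
  have hGZ : G ⊆ Z := fun x hx => mem_zs.2 ⟨s.hH (mem_zs.1 hx).1, (mem_zs.1 hx).2⟩
  have hspZ : sp v Z = LinearMap.ker u :=
    le_antisymm (sp_zs_le _ _ _) (hu.1.ker.trans (sup_le (sp_mono v hTZ) (sp_mono v hGZ)))
  have hrZ : r v Z + 1 = finrank ℝ U := by
    rw [r, hspZ]
    exact Module.Dual.finrank_ker_add_one_of_ne_zero fun h => by simp [h] at hue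
  obtain ⟨K, hKZ, hKc, hKd, hKconn⟩ := exists_heavy h0 hyp (zs_subset v E u)
    (fun x hx hm => mem_zs.2 ⟨hx, by rwa [← hZ, hspZ] at hm⟩)
    (fun M h => hno M (by rw [h]; exact hrZ))
  rw [← hZ] at hKZ hKc hKd
  have hKE : K ⊆ E := hKZ.trans (zs_subset _ _ _)
  have hZL : ∀ x ∈ Z, x ∉ G → v x ∈ sp v T := fun x hx hxG =>
    hu.2 x (mem_zs.1 hx).1 (fun h => hxG (mem_zs.2 ⟨h, (mem_zs.1 hx).2⟩)) (mem_zs.1 hx).2
  have hKG : K ⊆ G := by
    by_contra hn
    by_cases hA : (K ∩ G).Nonempty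
    · have h1 := hKconn (K ∩ G) Finset.inter_subset_left hA
        (fun h => hn (h ▸ Finset.inter_subset_right))
      have h2 : Disjoint (sp v (K ∩ G)) (sp v (K \ (K ∩ G))) := by
        refine s.disj.symm.mono (sp_mono v (Finset.inter_subset_right.trans (zs_subset _ _ _)))
          (sp_le.2 fun x hx => ?_)
        rw [Finset.mem_sdiff, Finset.mem_inter] at hx
        exact hZL x (hKZ hx.1) fun h => hx.2 ⟨hx.1, h⟩
      rw [disj_iff, Finset.union_sdiff_of_subset Finset.inter_subset_left] at h2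
      simp only [rk_bot, finrank_bot] at h1
      omega
    · have h1 : K ⊆ fl v E (sp v T) := fun x hx => mem_fl.2 ⟨hKE hx,
        hZL x (hKZ hx) fun h => hA ⟨x, Finset.mem_inter.2 ⟨hx, h⟩⟩⟩
      have := Finset.card_le_card h1
      have := s.light
      omega
  have hKH : K ⊆ H := hKG.trans (zs_subset _ _ _)
  have hTK : T ⊆ Z \ K := fun x hx => Finset.mem_sdiff.2 ⟨hTZ hx, fun h =>
    h0 x (s.hT hx) (Submodule.disjoint_def.1 s.disj _ (mem_sp v hx) (mem_sp v (hKH h)))⟩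
  set T' := T ∪ {e} ∪ (G \ K) with hT'
  have hsT' : sp v T' = sp v T ⊔ sp v {e} ⊔ sp v (G \ K) := by rw [hT', sp_union, sp_union]
  have hT'E : T' ⊆ E := Finset.union_subset (Finset.union_subset s.hT
    (by simpa using s.hH he)) (Finset.sdiff_subset.trans (hGZ.trans (zs_subset _ _ _)))
  have htop : sp v T' ⊔ sp v K = ⊤ := by
    rw [eq_top_iff, ← ker_sup_eq_top hue, ← sp_singleton]
    refine sup_le (hu.1.ker.trans (sup_le ?_ ?_)) ?_
    · exact le_sup_of_le_left (sp_mono v fun x hx => by simp [hT', hx])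
    · rw [← sp_union]
      refine sp_mono v fun x hx => ?_
      have hx' : x ∈ G := hx
      by_cases h : x ∈ K <;> simp [hT', h, hx']
    · exact le_sup_of_le_left (sp_mono v fun x hx => by
        rw [Finset.mem_singleton.1 hx]; simp [hT'])
  have hdisj : Disjoint (sp v T') (sp v K) := by
    rw [Submodule.disjoint_def]
    intro x hx hxK
    rw [hsT', sup_right_comm, sp_singleton] at hx
    obtain ⟨m, hm, z, hz, hsum⟩ := mem_sup.1 hx
    obtain ⟨c, rfl⟩ := mem_span_singleton.1 hz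
    have a1 : m ∈ sp v (Z \ K) := (sup_le (sp_mono v hTK)
      (sp_mono v (Finset.sdiff_subset_sdiff hGZ le_rfl)) : _ ≤ sp v (Z \ K)) hm
    have a2 : u m = 0 := (hspZ ▸ sp_mono v Finset.sdiff_subset a1 : m ∈ LinearMap.ker u)
    have a3 : u x = 0 := (hspZ ▸ sp_mono v hKZ hxK : x ∈ LinearMap.ker u)
    have a4 : c = 0 := by
      rw [← hsum] at a3
      simpa [a2, hue] using a3
    rw [a4, zero_smul, add_zero] at hsum
    exact Submodule.disjoint_def.1 hKd x hxK (hsum ▸ a1)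
  have hsign : Sign v E lam (sp v T') K := by
    intro J hJ hJK
    have up : ∀ ψ, Vx v lam (sp v T') K ψ → Vx v lam (sp v T ⊔ sp v {e}) G ψ :=
      fun ψ hψ => Vx.mono (hsT' ▸ hψ) Finset.sdiff_subset hKG
    by_cases hJG : J ∈ G
    · refine Or.inl fun ψ hψ => le_of_eq (Eq.symm (hψ.le (mem_sp v ?_)))
      simp [hT', hJG, hJK]
    · exact (hs J hJ hJG).imp (fun h ψ hψ => h ψ (up ψ hψ)) (fun h ψ hψ => h ψ (up ψ hψ))
  obtain ⟨k, hk⟩ := Finset.card_pos.1 (Nat.zero_lt_of_lt hKc)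
  have hne : sp v T' ≠ ⊤ := fun h =>
    h0 k (hKE hk) (Submodule.disjoint_def.1 hdisj _ (h ▸ mem_top) (mem_sp v hk))
  obtain ⟨χ, hχ, hin⟩ := exists_inner v lam _ K (sp v T') rfl hne htop (conn_mod hdisj hKconn)
    (by simpa using hg.mono hT'E hKE)
  refine ⟨K, T', ⟨hKE, hT'E, htop, hdisj, ?_, hsign, χ, hχ, fun J hJ hJK hz => ?_⟩, ?_⟩
  · by_contra hn
    exact no_heavy_pair (Y := fl v E (sp v T')) h0 hyp hKE (fun x hx => (mem_fl.1 hx).1)
      (hdisj.symm.mono_right (sp_le.2 fun x hx => (mem_fl.1 hx).2)) (by omega) (by omega)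
      (by omega)
  · rcases hsign J hJ hJK with h | h
    · exact hin _ h hz
    · exact (neg_mem_iff).1 (hin _ (fun ψ hψ => by simpa using h ψ hψ) (by simp [hz]))
  · refine Finset.card_lt_card (Finset.ssubset_iff_subset_ne.2 ⟨hKH, fun h => ?_⟩)
    exact hue (mem_zs.1 (hKG (h ▸ he))).2

theorem exists_flat {v : ι → U} {E : Finset ι} (h0 : ∀ e ∈ E, v e ≠ 0) (hyp : Hyp v E)
    (ht : sp v E = ⊤) (hN : 0 < finrank ℝ U) : ∃ M, (fl v E M).card + 1 = finrank ℝ U := by
  by_contra hno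
  push Not at hno
  obtain ⟨lam, hlam⟩ := Submodule.exists_forall_notMem_of_forall_ne_top
    (ι := {R : E.powerset // sp v R.1 ≠ ⊤}) (fun R => sp v R.1.1) fun R => R.2
  have hg : Gen v lam ⊥ E := fun R hR hne => by
    rw [bot_sup_eq] at hne ⊢
    exact hlam ⟨⟨R, Finset.mem_powerset.2 hR⟩, hne⟩
  have hb : (⊥ : Submodule ℝ U) ≠ ⊤ := fun h => by
    have := finrank_top ℝ U
    rw [← h, finrank_bot] at this
    omega
  have init : St v E lam E ∅ := by
    refine ⟨le_rfl, by simp, by simpa using ht, by simp, ?_, fun J hJ h => absurd hJ h, ?_⟩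
    · have : fl v E (sp v ∅) = ∅ := Finset.eq_empty_of_forall_notMem fun x hx =>
        h0 x (mem_fl.1 hx).1 (by simpa using (mem_fl.1 hx).2)
      rw [this]; exact hN
    · obtain ⟨φ, hφ⟩ := exists_vx hb (by simpa using ht) hg
      exact ⟨φ, by simpa using hφ, fun J hJ h => absurd hJ h⟩
  have key : ∀ n, ∀ H T, H.card = n → ¬St v E lam H T := by
    intro n
    induction n using Nat.strong_induction_on with
    | _ n ih =>
      intro H T hn s
      obtain ⟨K, T', s', hlt⟩ := step h0 hyp hg hno s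
      exact ih _ (hn ▸ hlt) K T' rfl s'
  exact key _ _ _ rfl init

theorem exists_covector {v : ι → U} {E : Finset ι} (h0 : ∀ e ∈ E, v e ≠ 0) (hyp : Hyp v E)
    (ht : sp v E = ⊤) (hN : 0 < finrank ℝ U) :
    ∃ φ : Dual ℝ U, φ ≠ 0 ∧ (zs v E φ).card + 1 = finrank ℝ U := by
  obtain ⟨M, hM⟩ := exists_flat h0 hyp ht hN
  obtain ⟨f, hf⟩ := Module.exists_dual_forall_apply_ne_zero (K := ℝ)
    (ι := {e : E // v e.1 ∉ M}) (fun e => M.mkQ (v e.1.1)) fun e => by simpa using e.2
  have hz : zs v E (f ∘ₗ M.mkQ) = fl v E M := by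
    ext e
    rw [mem_zs, mem_fl]
    refine and_congr_right fun he => ⟨fun h => ?_, fun h => ?_⟩
    · by_contra hn
      exact hf ⟨⟨e, he⟩, hn⟩ h
    · simp [(Submodule.Quotient.mk_eq_zero M).2 h]
  refine ⟨f ∘ₗ M.mkQ, fun h => ?_, by rw [hz, hM]⟩
  have h1 : E ⊆ fl v E M := fun e he => hz ▸ mem_zs.2 ⟨he, by simp [h]⟩
  have h2 := Finset.card_le_card h1
  have h3 := r_le_card v E
  rw [r, ht, finrank_top] at h3
  omega

end Pool.Agent.P.MP_ed12bb_co.G
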