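import Pool.Agent.P.MP_ed12bb_co.G.Hilb
import Pool.Agent.P.MP_ed12bb_co.G.Descent

/-!
The affine form of the theorem, and homogenisation.
-/

namespace Pool.Agent.P.MP_ed12bb_co.G

open Module Submodule

/-- evaluation at a point as a covector on polynomials of degree less than t -/
noncomputable def vv (t : ℕ) (q : Pt) : Dual ℝ (D t) where
  toFun F := MvPolynomial.eval q F.1
  map_add' F G := by simp
  map_smul' c F := by simp

theorem vv_apply (t : ℕ) (q : Pt) (F : D t) : vv t q F = MvPolynomial.eval q F.1 := rfl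

theorem r_add (t : ℕ) (X : Finset Pt) :
    r (vv t) X + finrank ℝ (It (IQ X) t) = finrank ℝ (D t) := by
  have h1 := Subspace.finrank_add_finrank_dualCoannihilator_eq (sp (vv t) X)
  have h2 : (sp (vv t) X).dualCoannihilator = (It (IQ X) t).comap (D t).subtype := by
    ext F
    rw [mem_dualCoannihilator, mem_comap, mem_It, mem_IQ]
    refine ⟨fun h => ⟨F.2, fun q hq => h _ (mem_sp _ hq)⟩, fun h φ hφ => ?_⟩
    have : sp (vv t) X ≤ LinearMap.ker (Dual.eval ℝ (D t) F) := sp_le.2 fun q hq => h.2 q hq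
    exact this hφ
  have h3 : It (IQ X) t ≤ D t := inf_le_left
  rw [h2, (Submodule.comapSubtypeEquivOfLe h3).finrank_eq] at h1
  exact h1

theorem r_eq (t : ℕ) (X : Finset Pt) : r (vv t) X = hf X t := by
  have := r_add t X
  have := hf_add X t
  omega

theorem hyp_vv (d : ℕ) (E : Finset Pt) : Hyp (vv (d + 1)) E := by
  classical
  intro X _ Y _ hd h1 h2
  rw [r_eq] at h1 ⊢
  rw [r_eq, r_eq] at h2
  refine skew_num ?_ h1 h2
  have a1 := (disj_iff _ X Y).1 hd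
  have a2 := r_add (d + 1) X
  have a3 := r_add (d + 1) Y
  have a4 := r_add (d + 1) (X ∪ Y)
  have a5 := finrank_sup_add_finrank_inf_eq (It (IQ X) (d + 1)) (It (IQ Y) (d + 1))
  have a6 : It (IQ X) (d + 1) ⊓ It (IQ Y) (d + 1) = It (IQ (X ∪ Y)) (d + 1) := by
    ext F
    simp only [mem_inf, mem_It, mem_IQ, Finset.mem_union]
    exact ⟨fun h => ⟨h.1.1, fun q hq => hq.elim (h.1.2 q) (h.2.2 q)⟩,
      fun h => ⟨⟨h.1, fun q hq => h.2 q (Or.inl hq)⟩, h.1, fun q hq => h.2 q (Or.inr hq)⟩⟩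
  rw [a6] at a5
  exact (Submodule.eq_of_le_of_finrank_le (sup_le inf_le_left inf_le_left) (by omega)).ge

theorem affine (d : ℕ) (Q : Finset Pt)
    (hQ : ∀ F ∈ D (d + 1), (∀ q ∈ Q, MvPolynomial.eval q F = 0) → F = 0) :
    ∃ F ∈ D (d + 1), F ≠ 0 ∧
      2 * ({q | q ∈ Q ∧ MvPolynomial.eval q F = 0}.ncard + 1) = (d + 1) * (d + 2) := by
  classical
  have hN := finrank_D (d + 1)
  have h0 : ∀ q ∈ Q, vv (d + 1) q ≠ 0 := fun q _ h => by
    have := vv_apply (d + 1) q ⟨1, D_mono (by omega) one_mem_D⟩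
    simp [h] at this
  have ht : sp (vv (d + 1)) Q = ⊤ := by
    have h1 : It (IQ Q) (d + 1) = ⊥ :=
      (Submodule.eq_bot_iff _).2 fun F hF => hQ F hF.1 (mem_IQ.1 hF.2)
    have h2 := r_add (d + 1) Q
    rw [h1, finrank_bot, add_zero, ← Subspace.dual_finrank_eq] at h2
    exact Submodule.eq_top_of_finrank_eq h2
  obtain ⟨φ, hφ, hc⟩ := exists_covector h0 (hyp_vv d Q) ht (by
    rw [Subspace.dual_finrank_eq]; nlinarith)
  obtain ⟨F, rfl⟩ := (Module.evalEquiv ℝ (D (d + 1))).surjective φ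
  refine ⟨F.1, F.2, fun h => hφ ?_, ?_⟩
  · rw [show F = 0 from Subtype.ext h, map_zero]
  · rw [Subspace.dual_finrank_eq] at hc
    rw [← hN, ← hc, ← Set.ncard_coe_finset]
    congr 3
    ext q
    simp [mem_zs, vv_apply]

/-- homogenisation with respect to a linear form -/
theorem exists_form (d : ℕ) (c : Fin 3 → ℝ) {F : A} (hF : F ∈ D (d + 1)) :
    ∃ G : MvPolynomial (Fin 3) ℝ, G.IsHomogeneous d ∧ ∀ p : Fin 3 → ℝ, c ⬝ᵥ p ≠ 0 →
      MvPolynomial.eval p G =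
        (c ⬝ᵥ p) ^ d * MvPolynomial.eval ![p 1 / (c ⬝ᵥ p), p 2 / (c ⬝ᵥ p)] F := by
  have hF' := D_le_span _ hF
  clear hF
  induction hF' using Submodule.span_induction with
  | mem F hF =>
    obtain ⟨i, j, hij, rfl⟩ := hF
    obtain ⟨k, rfl⟩ : ∃ k, d = k + i + j := ⟨d - i - j, by omega⟩
    let l : MvPolynomial (Fin 3) ℝ := ∑ i, MvPolynomial.C (c i) * MvPolynomial.X i
    have hl : l.IsHomogeneous 1 := MvPolynomial.IsHomogeneous.sum _ _ _ fun i _ => by
      simpa using (MvPolynomial.isHomogeneous_C (Fin 3) (c i)).mul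
        (MvPolynomial.isHomogeneous_X ℝ i)
    refine ⟨l ^ k * MvPolynomial.X 1 ^ i * MvPolynomial.X 2 ^ j, ?_, fun p hp => ?_⟩
    · simpa using ((hl.pow k).mul ((MvPolynomial.isHomogeneous_X ℝ (1 : Fin 3)).pow i)).mul
        ((MvPolynomial.isHomogeneous_X ℝ (2 : Fin 3)).pow j)
    · have : MvPolynomial.eval p l = c ⬝ᵥ p := by simp [l, dotProduct]
      simp only [map_mul, map_pow, this, MvPolynomial.eval_X, Matrix.cons_val_zero,
        Matrix.cons_val_one, div_pow]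
      field_simp
      ring
  | zero => exact ⟨0, MvPolynomial.isHomogeneous_zero _ _ _, by simp⟩
  | add F G _ _ hF hG =>
    obtain ⟨F', a1, a2⟩ := hF
    obtain ⟨G', b1, b2⟩ := hG
    exact ⟨F' + G', a1.add b1, fun p hp => by rw [map_add, map_add, a2 p hp, b2 p hp, mul_add]⟩
  | smul a F _ hF =>
    obtain ⟨F', a1, a2⟩ := hF
    refine ⟨MvPolynomial.C a * F', by simpa using (MvPolynomial.isHomogeneous_C _ a).mul a1,
      fun p hp => ?_⟩
    rw [map_mul, a2 p hp, MvPolynomial.smul_eval, MvPolynomial.eval_C]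
    ring

theorem form_ne_zero {d : ℕ} {c : Fin 3 → ℝ} (hc : c 0 ≠ 0) {F : A} (hF : F ≠ 0)
    {G : MvPolynomial (Fin 3) ℝ} (hG : ∀ p : Fin 3 → ℝ, c ⬝ᵥ p ≠ 0 → MvPolynomial.eval p G =
      (c ⬝ᵥ p) ^ d * MvPolynomial.eval ![p 1 / (c ⬝ᵥ p), p 2 / (c ⬝ᵥ p)] F) : G ≠ 0 := by
  rintro rfl
  refine hF (MvPolynomial.funext fun q => ?_)
  let p : Fin 3 → ℝ := ![(1 - c 1 * q 0 - c 2 * q 1) / c 0, q 0, q 1]
  have h1 : c ⬝ᵥ p = 1 := by
    simp only [p, dotProduct, Fin.sum_univ_three, Matrix.cons_val_zero, Matrix.cons_val_one,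
      Matrix.cons_val_two, Matrix.tail_cons, Matrix.head_cons]
    field_simp
    ring
  have h2 := hG p (by rw [h1]; exact one_ne_zero)
  have h3 : ![p 1 / (c ⬝ᵥ p), p 2 / (c ⬝ᵥ p)] = q := by
    rw [h1]; ext i; fin_cases i <;> simp [p]
  rw [h3, h1] at h2
  simpa using h2.symm

end Pool.Agent.P.MP_ed12bb_co.G
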