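import Mathlib

/-!
An ideal of polynomials over a gcd domain contains a nonzero constant, or its elements have a
common factor of positive degree.
-/

namespace Pool.Agent.P.MP_ed12bb_co.G

open Polynomial

theorem const_or_factor {R : Type*} [CommRing R] [IsDomain R] [NormalizedGCDMonoid R]
    (I : Ideal R[X]) (hI : I ≠ ⊥) :
    (∃ p : R, p ≠ 0 ∧ C p ∈ I) ∨ ∃ H : R[X], 0 < H.natDegree ∧ ∀ f ∈ I, H ∣ f := by
  classical
  have hex : ∃ n, ∃ g ∈ I, g ≠ 0 ∧ g.natDegree = n := by
    obtain ⟨g, hg, h0⟩ := Submodule.exists_mem_ne_zero_of_ne_bot hI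
    exact ⟨_, g, hg, h0, rfl⟩
  obtain ⟨g, hg, g0, gd⟩ := Nat.find_spec hex
  have gmin : ∀ f ∈ I, f ≠ 0 → g.natDegree ≤ f.natDegree := fun f hf f0 =>
    gd ▸ Nat.find_min' hex ⟨f, hf, f0, rfl⟩
  by_cases hd : g.natDegree = 0
  · left
    rw [eq_C_of_natDegree_eq_zero hd] at hg g0
    exact ⟨_, fun h => g0 (by rw [h, C_0]), hg⟩
  right
  refine ⟨g.primPart, by rw [natDegree_primPart]; omega, fun f hf => ?_⟩
  let K := FractionRing R
  have inj : Function.Injective (algebraMap R K) := IsFractionRing.injective R K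
  refine g.isPrimitive_primPart.dvd_of_fraction_map_dvd_fraction_map (K := K) ?_
  refine (Polynomial.map_dvd _ g.primPart_dvd).trans ?_
  set f' := f.map (algebraMap R K) with hf'
  set g' := g.map (algebraMap R K) with hg'
  have g'0 : g' ≠ 0 := (Polynomial.map_ne_zero_iff inj).2 g0
  obtain ⟨b, hb, hQ⟩ := IsLocalization.integerNormalization_spec (nonZeroDivisors R) (f' / g')
  set Q := IsLocalization.integerNormalization (nonZeroDivisors R) (f' / g')
  have hb0 : algebraMap R K b ≠ 0 := fun h =>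
    nonZeroDivisors.ne_zero hb (inj (h.trans (map_zero _).symm))
  have hρ : (C b * f - g * Q).map (algebraMap R K) = C (algebraMap R K b) * (f' % g') := by
    rw [Polynomial.map_sub, Polynomial.map_mul, Polynomial.map_mul, hQ, map_C, ← hf', ← hg',
      ← IsScalarTower.algebraMap_smul K b, smul_eq_C_mul]
    have := EuclideanDomain.div_add_mod f' g'
    linear_combination (-C (algebraMap R K b)) * this
  by_cases h0 : f' % g' = 0
  · exact EuclideanDomain.mod_eq_zero.1 h0
  exfalso
  have hne : C b * f - g * Q ≠ 0 := fun h => by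
    rw [h, Polynomial.map_zero] at hρ
    exact mul_ne_zero (C_ne_zero.2 hb0) h0 hρ.symm
  have h1 := gmin _ (I.sub_mem (I.mul_mem_left _ hf) (I.mul_mem_right _ hg)) hne
  rw [← natDegree_map_eq_of_injective inj (C b * f - g * Q), hρ, natDegree_C_mul hb0,
    ← natDegree_map_eq_of_injective inj g] at h1
  exact absurd (natDegree_lt_natDegree h0 (degree_mod_lt f' g'0)) (not_lt.2 h1)

end Pool.Agent.P.MP_ed12bb_co.G
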