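import Pool.Agent.P.MP_ed12bb_co.G.Deg
import Pool.Agent.P.MP_ed12bb_co.G.Gcd

/-!
Growth of the spaces of top forms of an ideal; minimal growth forces a common factor.
-/

namespace Pool.Agent.P.MP_ed12bb_co.G

open Polynomial Module Submodule

/-- elements of the ideal of degree less than t -/
noncomputable def It (I : Ideal A) (t : ℕ) : Submodule ℝ A := D t ⊓ I.restrictScalars ℝ

theorem mem_It {I : Ideal A} {t : ℕ} {F : A} : F ∈ It I t ↔ F ∈ D t ∧ F ∈ I := Iff.rfl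

instance (I : Ideal A) (t : ℕ) : FiniteDimensional ℝ (It I t) :=
  Submodule.finiteDimensional_of_le (inf_le_left : It I t ≤ D t)

/-- top forms of degree t -/
noncomputable def J (I : Ideal A) (t : ℕ) : Submodule ℝ ℝ[X] := (It I (t + 1)).map (top t)

instance (I : Ideal A) (t : ℕ) : FiniteDimensional ℝ (J I t) := by
  unfold J; infer_instance

theorem finrank_It_succ (I : Ideal A) (t : ℕ) :
    finrank ℝ (It I (t + 1)) = finrank ℝ (J I t) + finrank ℝ (It I t) := by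
  have h1 := finrank_map_add (top t) (It I (t + 1))
  have h2 : It I (t + 1) ⊓ LinearMap.ker (top t) = It I t := D_inf_ker t _
  rw [h2] at h1
  exact h1.symm

theorem J_le (I : Ideal A) (t : ℕ) : J I t ≤ degreeLT ℝ (t + 1) :=
  map_le_iff_le_comap.2 fun F _ => top_mem F t

theorem finrank_J_le (I : Ideal A) (t : ℕ) : finrank ℝ (J I t) ≤ t + 1 :=
  (Submodule.finrank_mono (J_le I t)).trans_eq (finrank_degLT _)

theorem J_mono (I : Ideal A) (t : ℕ) : J I t ≤ J I (t + 1) := by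
  rintro _ ⟨F, hF, rfl⟩
  exact ⟨xx * F, ⟨x_mem hF.1, I.mul_mem_left _ hF.2⟩, top_x t F⟩

theorem exists_max {I : Ideal A} {t : ℕ} (h : J I t ≠ ⊥) : ∃ F ∈ It I (t + 1), top t F ≠ 0 ∧
    ∀ P ∈ It I (t + 1), (top t P).natDegree ≤ (top t F).natDegree := by
  let S : Set ℕ := {n | ∃ F ∈ It I (t + 1), top t F ≠ 0 ∧ (top t F).natDegree = n}
  have hb : BddAbove S := ⟨t, fun n ⟨F, _, _, e⟩ => e ▸ top_natDegree F t⟩
  obtain ⟨_, ⟨G, hG, rfl⟩, h0⟩ := Submodule.exists_mem_ne_zero_of_ne_bot h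
  obtain ⟨F, h1, h2, h3⟩ := Nat.sSup_mem (s := S) ⟨_, G, hG, h0, rfl⟩ hb
  refine ⟨F, h1, h2, fun P hP => ?_⟩
  by_cases h4 : top t P = 0
  · simp [h4]
  · rw [h3]; exact le_csSup hb ⟨P, hP, h4, rfl⟩

theorem J_lt_sup {I : Ideal A} {t : ℕ} {F : A} (h2 : top t F ≠ 0)
    (h3 : ∀ P ∈ It I (t + 1), (top t P).natDegree ≤ (top t F).natDegree) :
    J I t < J I t ⊔ (ℝ ∙ (X * top t F)) := by
  refine lt_of_le_of_ne le_sup_left fun h => ?_
  obtain ⟨P, hP, e⟩ : X * top t F ∈ J I t := h ▸ mem_sup_right (mem_span_singleton_self _)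
  have := h3 P hP
  rw [e, natDegree_X_mul h2] at this
  omega

theorem J_sup_le {I : Ideal A} {t : ℕ} {F : A} (h1 : F ∈ It I (t + 1)) :
    J I t ⊔ (ℝ ∙ (X * top t F)) ≤ J I (t + 1) :=
  sup_le (J_mono I t) ((span_singleton_le_iff_mem _ _).2
    ⟨yy * F, ⟨y_mem h1.1, I.mul_mem_left _ h1.2⟩, top_y t F⟩)

theorem finrank_J_lt {I : Ideal A} {t : ℕ} (h : J I t ≠ ⊥) :
    finrank ℝ (J I t) < finrank ℝ (J I (t + 1)) := by
  obtain ⟨F, h1, h2, h3⟩ := exists_max h
  exact Submodule.finrank_lt_finrank_of_lt ((J_lt_sup h2 h3).trans_le (J_sup_le h1))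

/-- the graded pieces of the ideal generated by S -/
noncomputable def Sk (S : Submodule ℝ A) (F : A) : ℕ → Submodule ℝ A
  | 0 => S
  | k + 1 => Sk S F k ⊔ (Sk S F k).map (LinearMap.mulLeft ℝ xx) ⊔ (ℝ ∙ (yy ^ (k + 1) * F))

theorem mem_Sk {S : Submodule ℝ A} {F P : A} {k : ℕ} : P ∈ Sk S F (k + 1) ↔
    ∃ s ∈ Sk S F k, ∃ s' ∈ Sk S F k, ∃ c : ℝ, P = s + xx * s' + c • (yy ^ (k + 1) * F) := by
  simp only [Sk, mem_sup, mem_map, mem_span_singleton, LinearMap.mulLeft_apply]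
  constructor
  · rintro ⟨_, ⟨s, hs, _, ⟨s', hs', rfl⟩, rfl⟩, _, ⟨c, rfl⟩, rfl⟩
    exact ⟨s, hs, s', hs', c, rfl⟩
  · rintro ⟨s, hs, s', hs', c, rfl⟩
    exact ⟨_, ⟨s, hs, _, ⟨s', hs', rfl⟩, rfl⟩, _, ⟨c, rfl⟩, rfl⟩

theorem Sk_le_succ (S : Submodule ℝ A) (F : A) (k : ℕ) : Sk S F k ≤ Sk S F (k + 1) :=
  fun P h => mem_Sk.2 ⟨P, h, 0, zero_mem _, 0, by simp⟩

theorem Sk_mono (S : Submodule ℝ A) (F : A) : Monotone (Sk S F) :=
  monotone_nat_of_le_succ (Sk_le_succ S F)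

theorem x_Sk {S : Submodule ℝ A} {F P : A} {k : ℕ} (h : P ∈ Sk S F k) :
    xx * P ∈ Sk S F (k + 1) := mem_Sk.2 ⟨0, zero_mem _, P, h, 0, by simp⟩

theorem top_ypow (n k : ℕ) (F : A) : top (n + k) (yy ^ k * F) = X ^ k * top n F := by
  simpa using top_mon n 0 k F

section

variable {I : Ideal A} {t : ℕ} {F : A} (h1 : F ∈ It I (t + 1)) (h2 : top t F ≠ 0)
  (h3 : ∀ P ∈ It I (t + 1), (top t P).natDegree ≤ (top t F).natDegree)
  (h4 : J I (t + 1) ≤ J I t ⊔ (ℝ ∙ (X * top t F)))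

include h1 in
theorem Sk_le_D (k : ℕ) : Sk (It I (t + 1)) F k ≤ D (t + k + 1) := by
  induction k with
  | zero => exact inf_le_left
  | succ k ih =>
    intro P hP
    obtain ⟨s, hs, s', hs', c, rfl⟩ := mem_Sk.1 hP
    refine add_mem (add_mem (D_mono (by omega) (ih hs)) (x_mem (ih hs'))) (smul_mem _ _ ?_)
    have := mon_mem h1.1 0 (k + 1)
    rw [pow_zero, one_mul] at this
    exact D_mono (by omega) this

include h1 in
theorem top_Sk {k : ℕ} {s s' : A} (hs : s ∈ Sk (It I (t + 1)) F k) (c : ℝ) :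
    top (t + (k + 1)) (s + xx * s' + c • (yy ^ (k + 1) * F)) =
      top (t + k) s' + c • (X ^ (k + 1) * top t F) := by
  rw [map_add, map_add, map_smul, top_ypow, mem_D.1 (Sk_le_D h1 k hs) _ (by omega), zero_add,
    ← add_assoc, top_x]

include h1 h3 in
theorem natDegree_Sk (k : ℕ) : ∀ P ∈ Sk (It I (t + 1)) F k,
    (top (t + k) P).natDegree ≤ k + (top t F).natDegree := by
  induction k with
  | zero => simpa [Sk] using h3
  | succ k ih =>
    intro P hP
    obtain ⟨s, hs, s', hs', c, rfl⟩ := mem_Sk.1 hP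
    rw [top_Sk h1 hs]
    refine natDegree_add_le_of_degree_le ((ih s' hs').trans (by omega))
      ((natDegree_smul_le _ _).trans (natDegree_mul_le.trans ?_))
    rw [natDegree_X_pow]

include h1 h4 in
theorem y_Sk (k : ℕ) : ∀ P ∈ Sk (It I (t + 1)) F k, yy * P ∈ Sk (It I (t + 1)) F (k + 1) := by
  induction k with
  | zero =>
    intro P hP
    have hP' : P ∈ It I (t + 1) := hP
    have a1 : yy * P ∈ It I (t + 1 + 1) := ⟨y_mem hP'.1, I.mul_mem_left _ hP'.2⟩
    obtain ⟨_, ⟨P', hP', rfl⟩, z, hz, e⟩ := mem_sup.1 (h4 ⟨_, a1, rfl⟩)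
    obtain ⟨c, rfl⟩ := mem_span_singleton.1 hz
    refine mem_Sk.2 ⟨yy * P - xx * P' - c • (yy * F), ⟨mem_D_of_top ?_ ?_, ?_⟩, P', hP', c,
      by rw [zero_add, pow_one]; abel⟩
    · exact sub_mem (sub_mem a1.1 (x_mem hP'.1)) (smul_mem _ _ (y_mem h1.1))
    · rw [map_sub, map_sub, map_smul, top_x, ← e, top_y]; abel
    · exact sub_mem (sub_mem a1.2 (I.mul_mem_left _ hP'.2))
        (smul_mem (I.restrictScalars ℝ) _ (I.mul_mem_left _ h1.2))
  | succ k ih =>
    intro P hP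
    obtain ⟨s, hs, s', hs', c, rfl⟩ := mem_Sk.1 hP
    refine mem_Sk.2 ⟨yy * s, ih s hs, yy * s', ih s' hs', c, ?_⟩
    simp only [mul_add, mul_smul_comm]
    congr 2
    · ring
    · ring

include h1 h2 h3 in
theorem Sk_exact (k : ℕ) : ∀ P ∈ Sk (It I (t + 1)) F (k + 1), top (t + (k + 1)) P = 0 →
    P ∈ Sk (It I (t + 1)) F k := by
  have key : ∀ k, (∀ P ∈ Sk (It I (t + 1)) F k, top (t + k) P = 0 →
      xx * P ∈ Sk (It I (t + 1)) F k) → ∀ P ∈ Sk (It I (t + 1)) F (k + 1),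
      top (t + (k + 1)) P = 0 → P ∈ Sk (It I (t + 1)) F k := by
    intro k hk P hP h0
    obtain ⟨s, hs, s', hs', c, rfl⟩ := mem_Sk.1 hP
    rw [top_Sk h1 hs] at h0
    have hc : c = 0 := by
      by_contra hc
      have a1 := natDegree_Sk h1 h3 k s' hs'
      rw [eq_neg_of_add_eq_zero_left h0, natDegree_neg, natDegree_smul _ hc,
        natDegree_X_pow_mul _ h2] at a1
      omega
    rw [hc, zero_smul, add_zero] at h0 ⊢
    exact add_mem hs (hk s' hs' h0)
  induction k with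
  | zero =>
    refine key 0 fun P hP h0 => ?_
    have hP' : P ∈ It I (t + 1) := hP
    exact ⟨x_mem (mem_D_of_top hP'.1 h0), I.mul_mem_left _ hP'.2⟩
  | succ k ih => exact key (k + 1) fun P hP h0 => x_Sk (ih P hP h0)

include h1 h4 in
theorem exists_Sk {P : A} (hP : P ∈ Ideal.span (It I (t + 1) : Set A)) :
    ∃ k, P ∈ Sk (It I (t + 1)) F k := by
  have add : ∀ P Q : A, (∃ k, P ∈ Sk (It I (t + 1)) F k) → (∃ k, Q ∈ Sk (It I (t + 1)) F k) →
      ∃ k, P + Q ∈ Sk (It I (t + 1)) F k := fun P Q ⟨k, hk⟩ ⟨l, hl⟩ =>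
    ⟨max k l, add_mem (Sk_mono _ _ (le_max_left k l) hk) (Sk_mono _ _ (le_max_right k l) hl)⟩
  induction hP using Submodule.span_induction with
  | mem P hP => exact ⟨0, hP⟩
  | zero => exact ⟨0, zero_mem _⟩
  | add P Q _ _ hP hQ => exact add P Q hP hQ
  | smul G P _ hP =>
    rw [smul_eq_mul]
    induction G using MvPolynomial.induction_on with
    | C c =>
      obtain ⟨k, hk⟩ := hP
      exact ⟨k, by rw [← MvPolynomial.smul_eq_C_mul]; exact smul_mem _ _ hk⟩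
    | add p q hp hq => rw [add_mul]; exact add _ _ hp hq
    | mul_X p i hp =>
      obtain ⟨k, hk⟩ := hp
      rw [mul_right_comm, mul_comm]
      fin_cases i
      · exact ⟨_, x_Sk hk⟩
      · exact ⟨_, y_Sk h1 h4 k _ hk⟩

include h1 h2 h3 h4 in
theorem mem_Sk_of_deg {P : A} (hP : P ∈ Ideal.span (It I (t + 1) : Set A)) {k : ℕ}
    (hd : P ∈ D (t + k + 1)) : P ∈ Sk (It I (t + 1)) F k := by
  obtain ⟨K, hK⟩ := exists_Sk h1 h4 hP
  induction K with
  | zero => exact Sk_mono _ _ (Nat.zero_le k) hK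
  | succ K ih =>
    by_cases h : K + 1 ≤ k
    · exact Sk_mono _ _ h hK
    · exact ih (Sk_exact h1 h2 h3 K P hK (mem_D.1 hd _ (by omega)))

include h1 in
theorem finrank_top_Sk (k : ℕ) :
    finrank ℝ ((Sk (It I (t + 1)) F k).map (top (t + k))) ≤ finrank ℝ (J I t) + k := by
  have fin : ∀ k, FiniteDimensional ℝ ((Sk (It I (t + 1)) F k).map (top (t + k))) := fun k =>
    have := Submodule.finiteDimensional_of_le (Sk_le_D h1 k)
    inferInstance
  induction k with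
  | zero => exact le_rfl
  | succ k ih =>
    have a1 : (Sk (It I (t + 1)) F (k + 1)).map (top (t + (k + 1))) ≤
        (Sk (It I (t + 1)) F k).map (top (t + k)) ⊔ (ℝ ∙ (X ^ (k + 1) * top t F)) := by
      rintro _ ⟨P, hP, rfl⟩
      obtain ⟨s, hs, s', hs', c, rfl⟩ := mem_Sk.1 hP
      rw [top_Sk h1 hs]
      exact add_mem (mem_sup_left ⟨s', hs', rfl⟩)
        (mem_sup_right (smul_mem _ _ (mem_span_singleton_self _)))
    have := fin k
    have a2 := Submodule.finrank_mono a1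
    have a3 := finrank_sup_add_finrank_inf_eq ((Sk (It I (t + 1)) F k).map (top (t + k)))
      (ℝ ∙ (X ^ (k + 1) * top t F))
    have a4 : finrank ℝ (ℝ ∙ (X ^ (k + 1) * top t F)) ≤ 1 := by
      simpa using finrank_span_le_card (R := ℝ) {X ^ (k + 1) * top t F}
    omega

end

theorem coeff_aeval (w q : ℝ[X]) (n : ℕ) :
    (aeval (C w * X : ℝ[X][X]) q).coeff n = C (q.coeff n) * w ^ n := by
  induction q using Polynomial.induction_on' with
  | add p q hp hq => simp [hp, hq, add_mul]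
  | monomial m a =>
    rw [aeval_monomial, mul_pow, ← C_pow, coeff_monomial]
    have : (algebraMap ℝ ℝ[X][X]) a = C (C a) := rfl
    rw [this, ← mul_assoc, ← C_mul, coeff_C_mul, coeff_X_pow]
    by_cases h : m = n
    · simp [h]
    · simp [h, Ne.symm h]

theorem top_aeval_x (p : ℝ[X]) (n : ℕ) : top n (aeval xx p) = C (p.coeff n) := by
  have := coeff_aeval 1 p n
  rw [top_apply, ← aeval_algHom_apply, Φ_x]
  simpa using this

theorem top_aeval_y (p : ℝ[X]) (n : ℕ) : top n (aeval yy p) = C (p.coeff n) * X ^ n := by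
  rw [top_apply, ← aeval_algHom_apply, Φ_y, coeff_aeval]

theorem pure_or_factor (I : Ideal A) (hI : I ≠ ⊥) (e : ℝ[X][X] ≃ₐ[ℝ] A) :
    (∃ p : ℝ[X], p ≠ 0 ∧ aeval (e (C X)) p ∈ I) ∨ ∃ H, H ∉ D 1 ∧ ∀ F ∈ I, H ∣ F := by
  classical
  obtain ⟨G, hG, G0⟩ := Submodule.exists_mem_ne_zero_of_ne_bot hI
  have hne : I.comap e ≠ ⊥ := fun h => by
    have : e.symm G ∈ I.comap e := by simpa [Ideal.mem_comap] using hG
    rw [h] at this
    exact G0 (by simpa using this)
  rcases const_or_factor (I.comap e) hne with ⟨p, h0, hp⟩ | ⟨H, h0, hH⟩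
  · refine Or.inl ⟨p, h0, ?_⟩
    have : aeval (C X : ℝ[X][X]) p = C p := by
      have := aeval_algHom_apply (CAlgHom : ℝ[X] →ₐ[ℝ] ℝ[X][X]) X p
      simpa using this
    rw [aeval_algHom_apply e, this]
    exact hp
  · refine Or.inr ⟨e H, fun h => ?_, fun F hF => ?_⟩
    · obtain ⟨c, hc⟩ := const_of_D_one h
      have : H = C (C c) := e.injective (hc.trans (e.commutes c).symm)
      simp [this] at h0
    · have := map_dvd e (hH (e.symm F) (by simpa [Ideal.mem_comap] using hF))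
      simpa using this

/-- minimal growth forces a common factor -/
theorem davis {I : Ideal A} {t : ℕ} (h : J I t ≠ ⊥)
    (hg : finrank ℝ (J I (t + 1)) ≤ finrank ℝ (J I t) + 1) (hc : finrank ℝ (J I t) ≤ t) :
    ∃ H, H ∉ D 1 ∧ ∀ F ∈ It I (t + 1), H ∣ F := by
  obtain ⟨F, h1, h2, h3⟩ := exists_max h
  have h4 : J I (t + 1) ≤ J I t ⊔ (ℝ ∙ (X * top t F)) := by
    have := Submodule.finrank_lt_finrank_of_lt (J_lt_sup h2 h3)
    exact (Submodule.eq_of_le_of_finrank_le (J_sup_le h1) (by omega)).ge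
  have hI : Ideal.span (It I (t + 1) : Set A) ≠ ⊥ := fun e => by
    have : F ∈ Ideal.span (It I (t + 1) : Set A) := Ideal.subset_span h1
    rw [e, Ideal.mem_bot] at this
    simp [this] at h2
  by_contra hn
  have hn' : ¬∃ H, H ∉ D 1 ∧ ∀ F ∈ Ideal.span (It I (t + 1) : Set A), H ∣ F :=
    fun ⟨H, a, b⟩ => hn ⟨H, a, fun F hF => b F (Ideal.subset_span hF)⟩
  obtain ⟨p, p0, hp⟩ := (pure_or_factor _ hI (Bivariate.equivMvPolynomial ℝ)).resolve_right hn'
  obtain ⟨q, q0, hq⟩ := (pure_or_factor _ hI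
    (Bivariate.swap.trans (Bivariate.equivMvPolynomial ℝ))).resolve_right hn'
  rw [Bivariate.equivMvPolynomial_C_X] at hp
  rw [AlgEquiv.trans_apply, Bivariate.swap_X, Bivariate.equivMvPolynomial_X] at hq
  set a := p.natDegree
  set b := q.natDegree
  have pD : aeval xx p ∈ D (a + 1) := mem_D.2 fun n hn => by
    rw [top_aeval_x, coeff_eq_zero_of_natDegree_lt hn, C_0]
  have qD : aeval yy q ∈ D (b + 1) := mem_D.2 fun n hn => by
    rw [top_aeval_y, coeff_eq_zero_of_natDegree_lt hn, C_0, zero_mul]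
  have pa : p.coeff a ≠ 0 := leadingCoeff_ne_zero.2 p0
  have qb : q.coeff b ≠ 0 := leadingCoeff_ne_zero.2 q0
  have key : degreeLT ℝ (t + (a + b) + 1) ≤
      (Sk (It I (t + 1)) F (a + b)).map (top (t + (a + b))) := by
    rw [degreeLT_eq_span_X_pow, span_le]
    intro z hz
    simp only [Finset.coe_image, Finset.coe_range, Set.mem_image, Set.mem_Iio] at hz
    obtain ⟨j, hj, rfl⟩ := hz
    by_cases hja : j + a ≤ t + (a + b)
    · obtain ⟨i, hi⟩ : ∃ i, t + (a + b) = a + (i + j) := ⟨t + b - j, by omega⟩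
      refine (smul_mem_iff _ pa).1 ⟨xx ^ i * yy ^ j * aeval xx p,
        mem_Sk_of_deg h1 h2 h3 h4 (Ideal.mul_mem_left _ _ hp) (D_mono (by omega)
          (mon_mem pD i j)), ?_⟩
      rw [hi, top_mon, top_aeval_x, smul_eq_C_mul, mul_comm]
    · obtain ⟨l, rfl⟩ : ∃ l, j = l + b := ⟨j - b, by omega⟩
      obtain ⟨i, hi⟩ : ∃ i, t + (a + b) = b + (i + l) := ⟨t + a - l, by omega⟩
      refine (smul_mem_iff _ qb).1 ⟨xx ^ i * yy ^ l * aeval yy q,
        mem_Sk_of_deg h1 h2 h3 h4 (Ideal.mul_mem_left _ _ hq) (D_mono (by omega)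
          (mon_mem qD i l)), ?_⟩
      rw [hi, top_mon, top_aeval_y, smul_eq_C_mul]
      ring
  have := Submodule.finiteDimensional_of_le (Sk_le_D h1 (a + b))
  have a1 := Submodule.finrank_mono key
  have a2 := finrank_top_Sk h1 (a + b)
  rw [finrank_degLT] at a1
  omega

end Pool.Agent.P.MP_ed12bb_co.G
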