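import Mathlib

/-!
The degree filtration of polynomials in two variables and top forms.
-/

namespace Pool.Agent.P.MP_ed12bb_co.G

open Polynomial Module Submodule

/-- polynomials in two variables -/
abbrev A := MvPolynomial (Fin 2) ℝ

/-- first variable -/
noncomputable abbrev xx : A := MvPolynomial.X 0

/-- second variable -/
noncomputable abbrev yy : A := MvPolynomial.X 1

/-- the substitution x = T, y = u T -/
noncomputable def Φ : A →ₐ[ℝ] ℝ[X][X] := MvPolynomial.aeval ![X, C X * X]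

theorem Φ_x : Φ xx = X := by simp [Φ]

theorem Φ_y : Φ yy = C X * X := by simp [Φ]

theorem Φ_C (a : ℝ) : Φ (MvPolynomial.C a) = C (C a) := by simp [Φ]

theorem Φ_eval (F : A) (a b : ℝ) :
    ((Φ F).eval (C a)).eval b = MvPolynomial.eval ![a, b * a] F := by
  induction F using MvPolynomial.induction_on with
  | C c => simp
  | add p q hp hq => simp [hp, hq]
  | mul_X p n hp =>
    fin_cases n
    · simp [hp, Φ_x]
    · simp [hp, Φ_y, mul_comm a b]

theorem Φ_eq_zero {F : A} (h : Φ F = 0) : F = 0 := by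
  have : xx * F = 0 := MvPolynomial.funext fun q => by
    by_cases h0 : q 0 = 0
    · simp [h0]
    · have h1 := Φ_eval F (q 0) (q 1 / q 0)
      have h2 : ![q 0, q 1 / q 0 * q 0] = q := by
        ext i; fin_cases i <;> simp [h0]
      rw [h, h2] at h1
      simp [← h1]
  exact (mul_eq_zero.1 this).resolve_left (MvPolynomial.X_ne_zero _)

/-- the form of degree t, dehomogenised -/
noncomputable def top (t : ℕ) : A →ₗ[ℝ] ℝ[X] where
  toFun F := (Φ F).coeff t
  map_add' := by simp
  map_smul' := by simp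

theorem top_apply (t : ℕ) (F : A) : top t F = (Φ F).coeff t := rfl

/-- polynomials of degree less than t -/
noncomputable def D (t : ℕ) : Submodule ℝ A := ⨅ n, ⨅ (_ : t ≤ n), LinearMap.ker (top n)

theorem mem_D {t : ℕ} {F : A} : F ∈ D t ↔ ∀ n, t ≤ n → top n F = 0 := by simp [D]

theorem D_mono {s t : ℕ} (h : s ≤ t) : D s ≤ D t := fun _ hF =>
  mem_D.2 fun n hn => mem_D.1 hF n (h.trans hn)

theorem mem_D_of_top {t : ℕ} {F : A} (h : F ∈ D (t + 1)) (h0 : top t F = 0) : F ∈ D t :=
  mem_D.2 fun n hn => by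
    rcases hn.eq_or_lt with rfl | h1
    · exact h0
    · exact mem_D.1 h n h1

theorem D_zero : D 0 = ⊥ := by
  refine (Submodule.eq_bot_iff _).2 fun F hF => Φ_eq_zero ?_
  ext1 n
  exact mem_D.1 hF n (Nat.zero_le _)

theorem top_x (n : ℕ) (F : A) : top (n + 1) (xx * F) = top n F := by
  simp [top_apply, Φ_x]

theorem top_y (n : ℕ) (F : A) : top (n + 1) (yy * F) = X * top n F := by
  simp [top_apply, Φ_y, mul_assoc]

theorem top_mon (n i j : ℕ) (F : A) :
    top (n + (i + j)) (xx ^ i * yy ^ j * F) = X ^ j * top n F := by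
  have : Φ (xx ^ i * yy ^ j * F) = C (X ^ j) * (X ^ (i + j) * Φ F) := by
    simp only [map_mul, map_pow, Φ_x, Φ_y]; ring
  rw [top_apply, this, coeff_C_mul, coeff_X_pow_mul, top_apply]

theorem mon_mem {t : ℕ} {F : A} (h : F ∈ D t) (i j : ℕ) :
    xx ^ i * yy ^ j * F ∈ D (t + (i + j)) := mem_D.2 fun n hn => by
  obtain ⟨m, rfl⟩ : ∃ m, n = m + (i + j) := ⟨n - (i + j), by omega⟩
  rw [top_mon, mem_D.1 h m (by omega), mul_zero]

theorem x_mem {t : ℕ} {F : A} (h : F ∈ D t) : xx * F ∈ D (t + 1) := by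
  simpa using mon_mem h 1 0

theorem y_mem {t : ℕ} {F : A} (h : F ∈ D t) : yy * F ∈ D (t + 1) := by
  simpa using mon_mem h 0 1

theorem one_mem_D : (1 : A) ∈ D 1 := mem_D.2 fun n hn => by
  rw [top_apply, map_one, coeff_one, if_neg (by omega)]

theorem top_one : top 0 1 = 1 := by simp [top_apply]

theorem exists_D (F : A) : ∃ t, F ∈ D t :=
  ⟨(Φ F).natDegree + 1, mem_D.2 fun _ hn => coeff_eq_zero_of_natDegree_lt hn⟩

theorem top_natDegree (F : A) : ∀ n, (top n F).natDegree ≤ n := by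
  induction F using MvPolynomial.induction_on with
  | C c =>
    intro n
    rw [top_apply, Φ_C, coeff_C]
    split_ifs <;> simp
  | add p q hp hq =>
    intro n
    rw [map_add]
    exact natDegree_add_le_of_degree_le (hp n) (hq n)
  | mul_X p i hp =>
    intro n
    rw [mul_comm]
    cases n with
    | zero => fin_cases i <;> simp [top_apply, Φ_x, Φ_y, mul_assoc]
    | succ n =>
      fin_cases i
      · exact (top_x n p).symm ▸ (hp n).trans n.le_succ
      · refine (top_y n p).symm ▸ natDegree_mul_le.trans ?_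
        have := hp n
        rw [natDegree_X]
        omega

theorem top_mem (F : A) (n : ℕ) : top n F ∈ degreeLT ℝ (n + 1) :=
  mem_degreeLT.2 (degree_le_natDegree.trans_lt (by
    exact_mod_cast Nat.lt_succ_of_le (top_natDegree F n)))

/-- the monomials of degree less than t -/
def Mon (t : ℕ) : Set A := {F | ∃ i j, i + j < t ∧ F = xx ^ i * yy ^ j}

theorem exists_top {t : ℕ} {p : ℝ[X]} (hp : p.natDegree ≤ t) :
    ∃ G ∈ D (t + 1), G ∈ span ℝ (Mon (t + 1)) ∧ top t G = p := by
  refine ⟨∑ j ∈ Finset.range (t + 1), p.coeff j • (xx ^ (t - j) * yy ^ j), ?_, ?_, ?_⟩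
  · refine sum_mem fun j hj => smul_mem _ _ ?_
    have h1 := mon_mem one_mem_D (t - j) j
    rw [Finset.mem_range] at hj
    rwa [mul_one, show 1 + (t - j + j) = t + 1 by omega] at h1
  · refine sum_mem fun j hj => smul_mem _ _ (subset_span ⟨t - j, j, ?_, rfl⟩)
    rw [Finset.mem_range] at hj
    omega
  · rw [map_sum]
    conv_rhs => rw [as_sum_range_C_mul_X_pow' p (Nat.lt_succ_of_le hp)]
    refine Finset.sum_congr rfl fun j hj => ?_
    have h1 := top_mon 0 (t - j) j 1
    rw [Finset.mem_range] at hj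
    rw [mul_one, show 0 + (t - j + j) = t by omega, top_one, mul_one] at h1
    rw [map_smul, h1, smul_eq_C_mul]

theorem D_le_span (t : ℕ) : D t ≤ span ℝ (Mon t) := by
  induction t with
  | zero => rw [D_zero]; exact bot_le
  | succ t ih =>
    intro F hF
    obtain ⟨G, h1, h2, h3⟩ := exists_top (top_natDegree F t)
    have h4 : F - G ∈ D t := mem_D_of_top (sub_mem hF h1) (by rw [map_sub, h3, sub_self])
    have h5 : span ℝ (Mon t) ≤ span ℝ (Mon (t + 1)) :=
      span_mono fun _ ⟨i, j, h, e⟩ => ⟨i, j, by omega, e⟩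
    simpa using add_mem (h5 (ih h4)) h2

theorem mon_finite (t : ℕ) : (Mon t).Finite := by
  refine ((Finset.range t ×ˢ Finset.range t).finite_toSet.image
    fun p : ℕ × ℕ => xx ^ p.1 * yy ^ p.2).subset ?_
  rintro _ ⟨i, j, h, rfl⟩
  exact ⟨(i, j), by simp; omega, rfl⟩

instance (t : ℕ) : FiniteDimensional ℝ (D t) :=
  have := FiniteDimensional.span_of_finite ℝ (mon_finite t)
  Submodule.finiteDimensional_of_le (D_le_span t)

theorem map_top (t : ℕ) : (D (t + 1)).map (top t) = degreeLT ℝ (t + 1) := by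
  refine le_antisymm (map_le_iff_le_comap.2 fun F _ => top_mem F t) fun p hp => ?_
  obtain ⟨G, h1, -, h3⟩ := exists_top (t := t) (p := p) (by
    by_cases h : p = 0
    · simp [h]
    · have := (natDegree_lt_iff_degree_lt h).2 (mem_degreeLT.1 hp)
      omega)
  exact ⟨G, h1, h3⟩

theorem finrank_degLT (n : ℕ) : finrank ℝ (degreeLT ℝ n) = n := by
  rw [finrank_eq_card_basis (degreeLT.basis ℝ n), Fintype.card_fin]

theorem finrank_map_add {V W : Type*} [AddCommGroup V] [Module ℝ V] [AddCommGroup W] [Module ℝ W]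
    (f : V →ₗ[ℝ] W) (P : Submodule ℝ V) [FiniteDimensional ℝ P] :
    finrank ℝ (P.map f) + finrank ℝ (P ⊓ LinearMap.ker f : Submodule ℝ V) = finrank ℝ P := by
  rw [← (f.domRestrict P).finrank_range_add_finrank_ker, LinearMap.range_domRestrict,
    LinearMap.ker_domRestrict, ← Submodule.finrank_map_subtype_eq P, Submodule.map_comap_subtype]

theorem D_inf_ker (t : ℕ) (I : Submodule ℝ A) :
    (D (t + 1) ⊓ I) ⊓ LinearMap.ker (top t) = D t ⊓ I := by
  ext F
  simp only [mem_inf, LinearMap.mem_ker]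
  exact ⟨fun h => ⟨mem_D_of_top h.1.1 h.2, h.1.2⟩,
    fun h => ⟨⟨D_mono t.le_succ h.1, h.2⟩, mem_D.1 h.1 t le_rfl⟩⟩

theorem finrank_D_succ (t : ℕ) : finrank ℝ (D (t + 1)) = finrank ℝ (D t) + (t + 1) := by
  have h1 := finrank_map_add (top t) (D (t + 1))
  have h2 := D_inf_ker t ⊤
  rw [inf_top_eq, inf_top_eq] at h2
  rw [map_top, finrank_degLT, h2] at h1
  omega

theorem finrank_D (t : ℕ) : 2 * finrank ℝ (D t) = t * (t + 1) := by
  induction t with
  | zero => rw [D_zero]; simp
  | succ t ih => rw [finrank_D_succ, mul_add, ih]; ring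

theorem mem_D_of_mul {H G : A} {d : ℕ} (h : H * G ∈ D (d + 1)) (hH : H ∉ D 1) : G ∈ D d := by
  by_cases hG : Φ G = 0
  · rw [Φ_eq_zero hG]; exact zero_mem _
  have h1 : 0 < (Φ H).natDegree := by
    by_contra hn
    exact hH (mem_D.2 fun n hn' => coeff_eq_zero_of_natDegree_lt (p := Φ H) (by omega))
  have h2 : Φ H ≠ 0 := fun e => by simp [e] at h1
  have h3 : (Φ (H * G)).natDegree ≤ d := natDegree_le_iff_coeff_eq_zero.2 fun n hn =>
    mem_D.1 h n hn
  rw [map_mul, natDegree_mul h2 hG] at h3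
  exact mem_D.2 fun n hn => coeff_eq_zero_of_natDegree_lt (p := Φ G) (by omega)

theorem const_of_D_one {H : A} (h : H ∈ D 1) : ∃ c : ℝ, H = MvPolynomial.C c := by
  have h1 : Mon 1 = {1} := by
    ext F
    refine ⟨fun ⟨i, j, h, e⟩ => ?_, fun h => ⟨0, 0, by omega, by simpa using h⟩⟩
    obtain rfl : i = 0 := by omega
    obtain rfl : j = 0 := by omega
    simpa using e
  have h2 := D_le_span 1 h
  rw [h1] at h2
  obtain ⟨c, rfl⟩ := mem_span_singleton.1 h2
  exact ⟨c, by simp [MvPolynomial.smul_eq_C_mul]⟩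

end Pool.Agent.P.MP_ed12bb_co.G
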