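import Pool.Agent.P.MP_ed12bb_co.G.Interior

/-!
Flats of prescribed size inside a decomposable flat.
-/

namespace Pool.Agent.P.MP_ed12bb_co.G

open Submodule Module

variable {U : Type*} [AddCommGroup U] [Module ℝ U] {ι : Type*} [DecidableEq ι]
  [FiniteDimensional ℝ U]

/-- rank -/
noncomputable def r (v : ι → U) (A : Finset ι) : ℕ := finrank ℝ (sp v A)

/-- the flat cut out by a subspace -/
noncomputable def fl (v : ι → U) (E : Finset ι) (M : Submodule ℝ U) : Finset ι := by
  classical exact E.filter fun e => v e ∈ M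

omit [DecidableEq ι] [FiniteDimensional ℝ U] in
theorem mem_fl {v : ι → U} {E : Finset ι} {M : Submodule ℝ U} {e : ι} :
    e ∈ fl v E M ↔ e ∈ E ∧ v e ∈ M := by simp [fl]

/-- the numerical property of skew pairs -/
def Hyp (v : ι → U) (E : Finset ι) : Prop :=
  ∀ X ⊆ E, ∀ Y ⊆ E, Disjoint (sp v X) (sp v Y) → r v X < X.card → r v X + r v Y ≤ Y.card →
    3 * X.card < 4 * r v X

omit [DecidableEq ι] [FiniteDimensional ℝ U] in
theorem rk_bot (v : ι → U) (A : Finset ι) : rk v ⊥ A = r v A := by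
  unfold rk r
  rw [bot_sup_eq]

theorem r_union_le (v : ι → U) (A B : Finset ι) : r v (A ∪ B) ≤ r v A + r v B := by
  have := finrank_sup_add_finrank_inf_eq (sp v A) (sp v B)
  unfold r
  rw [sp_union]
  omega

theorem disj_iff (v : ι → U) (A B : Finset ι) :
    Disjoint (sp v A) (sp v B) ↔ r v A + r v B ≤ r v (A ∪ B) := by
  have := finrank_sup_add_finrank_inf_eq (sp v A) (sp v B)
  unfold r
  rw [sp_union, disjoint_iff, ← Submodule.finrank_eq_zero]
  omega

omit [DecidableEq ι] [FiniteDimensional ℝ U] in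
theorem r_le_card (v : ι → U) (A : Finset ι) : r v A ≤ A.card := finrank_sp_le v A

omit [DecidableEq ι] in
theorem r_pos {v : ι → U} {A : Finset ι} {e : ι} (he : e ∈ A) (h : v e ≠ 0) : 0 < r v A := by
  rw [Nat.pos_iff_ne_zero, r, Ne, Submodule.finrank_eq_zero]
  intro h0
  exact h (by simpa [h0] using mem_sp v he)

omit [FiniteDimensional ℝ U] in
theorem exists_basis (v : ι → U) (X : Finset ι) : ∃ B ⊆ X, B.card = r v X ∧ sp v X ≤ sp v B ∧
    ∀ b ∈ B, v b ∉ sp v (B.erase b) := by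
  obtain ⟨b, h1, -, h2, h3⟩ := exists_linearIndepOn_extension (K := ℝ) (v := v)
    (s := ∅) (t := (X : Set ι)) (linearIndepOn_empty ℝ v) (Set.empty_subset _)
  lift b to Finset ι using (Finset.finite_toSet X).subset h1
  have h4 : sp v X ≤ sp v b := span_le.2 h2
  have h5 : b ⊆ X := by exact_mod_cast h1
  refine ⟨b, h5, ?_, h4, fun x hx => ?_⟩
  · have h6 := finrank_span_eq_card (R := ℝ) h3
    have h7 : sp v X = span ℝ (Set.range fun x : (b : Set ι) => v x) := by
      rw [le_antisymm h4 (sp_mono v h5), sp, Set.image_eq_range]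
    rw [r, h7, h6]
    simp
  · have := linearIndepOn_iff_notMem_span.1 h3 x hx
    rwa [sp, Finset.coe_erase]

omit [FiniteDimensional ℝ U] in
theorem exists_closed {v : ι → U} {X : Finset ι} (h0 : ∀ e ∈ X, v e ≠ 0) {k : ℕ}
    (hk : k + X.card ≤ 2 * r v X) :
    ∃ F ⊆ X, F.card = k ∧ ∀ x ∈ X, v x ∈ sp v F → x ∈ F := by
  obtain ⟨B, hB, hc, hs, hi⟩ := exists_basis v X
  have key : ∀ x ∈ X, ∃ b ∈ B, v x ∉ sp v (B.erase b) := by
    intro x hx
    obtain ⟨c, hc⟩ :=
      (Submodule.mem_span_image_finset_iff_exists_fun' ℝ).1 (hs (mem_sp v hx))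
    obtain ⟨b, hb, hcb⟩ : ∃ b ∈ B, c b ≠ 0 := by
      by_contra hn
      push Not at hn
      refine h0 x hx ?_
      rw [← hc]
      exact Finset.sum_eq_zero fun b hb => by simp [hn b hb]
    refine ⟨b, hb, fun hm => hi b hb ?_⟩
    rw [← Finset.add_sum_erase _ _ hb] at hc
    have h1 : ∑ i ∈ B.erase b, c i • v i ∈ sp v (B.erase b) :=
      sum_mem fun i hi => smul_mem _ _ (mem_sp v hi)
    have h2 : c b • v b ∈ sp v (B.erase b) := by
      rw [eq_sub_of_add_eq hc]; exact sub_mem hm h1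
    exact (smul_mem_iff _ hcb).1 h2
  choose! g hg using key
  have h1 : ((X \ B).image g).card + B.card ≤ X.card := by
    have := Finset.card_image_le (s := X \ B) (f := g)
    have := Finset.card_sdiff_add_card_eq_card hB
    omega
  have h2 := Finset.le_card_sdiff ((X \ B).image g) B
  obtain ⟨F, hF, hFc⟩ := Finset.exists_subset_card_eq (s := B \ (X \ B).image g) (n := k)
    (by omega)
  have hFB : F ⊆ B := hF.trans Finset.sdiff_subset
  refine ⟨F, hFB.trans hB, hFc, fun x hx hm => ?_⟩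
  by_contra hxF
  by_cases hxB : x ∈ B
  · exact hi x hxB (sp_mono v (Finset.subset_erase.2 ⟨hFB, hxF⟩) hm)
  · refine (hg x hx).2 (sp_mono v (Finset.subset_erase.2 ⟨hFB, fun h => ?_⟩) hm)
    exact (Finset.mem_sdiff.1 (hF h)).2
      (Finset.mem_image_of_mem g (Finset.mem_sdiff.2 ⟨hx, hxB⟩))

omit [FiniteDimensional ℝ U] in
theorem success {v : ι → U} {E Z X : Finset ι} (h0 : ∀ e ∈ E, v e ≠ 0) (hZ : Z ⊆ E)
    (hfl : ∀ e ∈ E, v e ∈ sp v Z → e ∈ Z) (hX : X ⊆ Z) (hd : Disjoint (sp v X) (sp v (Z \ X)))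
    (h1 : X.card + r v (Z \ X) ≤ (Z \ X).card + r v X)
    (h2 : (Z \ X).card ≤ r v X + r v (Z \ X)) :
    ∃ M, (fl v E M).card = r v X + r v (Z \ X) := by
  set Y := Z \ X with hY
  obtain ⟨F, hF, hc, hcl⟩ := exists_closed (v := v) (X := X) (fun e he => h0 e (hZ (hX he)))
    (k := r v X + r v Y - Y.card) (by omega)
  have hFY : Disjoint F Y := Finset.disjoint_left.2 fun x hx hy =>
    (Finset.mem_sdiff.1 hy).2 (hF hx)
  have hsub : F ∪ Y ⊆ Z := Finset.union_subset (hF.trans hX) Finset.sdiff_subset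
  refine ⟨sp v (F ∪ Y), ?_⟩
  have : fl v E (sp v (F ∪ Y)) = F ∪ Y := by
    ext e
    rw [mem_fl]
    refine ⟨fun ⟨he, hm⟩ => ?_, fun he => ⟨hZ (hsub he), mem_sp v he⟩⟩
    have heZ := hfl e he (sp_mono v hsub hm)
    by_cases heX : e ∈ X
    · rw [sp_union] at hm
      obtain ⟨a, ha, b, hb, hab⟩ := mem_sup.1 hm
      have hb' : b ∈ sp v X := by
        rw [eq_sub_of_add_eq' hab]; exact sub_mem (mem_sp v heX) (sp_mono v hF ha)
      have hb0 : b = 0 := Submodule.disjoint_def.1 hd b hb' hb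
      rw [hb0, add_zero] at hab
      exact Finset.mem_union_left _ (hcl e heX (hab ▸ ha))
    · exact Finset.mem_union_right _ (Finset.mem_sdiff.2 ⟨heZ, heX⟩)
  rw [this, Finset.card_union_of_disjoint hFY, hc]
  omega

/-- a flat contains a flat whose size is its rank, or a large connected separator -/
theorem exists_heavy {v : ι → U} {E Z : Finset ι} (h0 : ∀ e ∈ E, v e ≠ 0) (hH : Hyp v E)
    (hZ : Z ⊆ E) (hfl : ∀ e ∈ E, v e ∈ sp v Z → e ∈ Z)
    (hno : ∀ M, (fl v E M).card ≠ r v Z) :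
    ∃ K ⊆ Z, r v Z < K.card ∧ Disjoint (sp v K) (sp v (Z \ K)) ∧ Conn v ⊥ K := by
  classical
  have un : ∀ Y ⊆ Z, Y ∪ (Z \ Y) = Z := fun Y hY => Finset.union_sdiff_of_subset hY
  obtain ⟨Y, hY, hmin⟩ := Finset.exists_min_image
    (Z.powerset.filter fun Y => r v Y + r v (Z \ Y) ≤ r v Z ∧
      Z.card + 2 * r v Y ≤ 2 * Y.card + r v Z) Finset.card
    ⟨Z, by
      have := r_le_card v Z
      have := r_le_card v (Z \ Z)
      have : (Z \ Z).card = 0 := by simp
      simp only [Finset.mem_filter, Finset.mem_powerset]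
      exact ⟨le_rfl, by omega, by omega⟩⟩
  simp only [Finset.mem_filter, Finset.mem_powerset] at hY hmin
  obtain ⟨hYZ, hs, hn⟩ := hY
  have hc := Finset.card_sdiff_add_card_eq_card hYZ
  have hle : ∀ Y ⊆ Z, r v Z ≤ r v Y + r v (Z \ Y) := fun Y hY => by
    have := r_union_le v Y (Z \ Y)
    rwa [un Y hY] at this
  have hd : ∀ Y ⊆ Z, r v Y + r v (Z \ Y) ≤ r v Z → Disjoint (sp v Y) (sp v (Z \ Y)) :=
    fun Y hY h => (disj_iff v _ _).2 (by rwa [un Y hY])
  have hYs := hle Y hYZ
  refine ⟨Y, hYZ, ?_, hd Y hYZ hs, ?_⟩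
  · by_contra hlt
    have e : Z \ (Z \ Y) = Y := Finset.sdiff_sdiff_eq_self hYZ
    obtain ⟨M, hM⟩ := success (X := Z \ Y) h0 hZ hfl Finset.sdiff_subset
      (by rw [e]; exact (hd Y hYZ hs).symm) (by rw [e]; omega) (by rw [e]; omega)
    rw [e] at hM
    exact hno M (by omega)
  · have main : ∀ A B : Finset ι, A ⊆ Y → B = Y \ A → A.Nonempty → B.Nonempty →
        r v A + r v B ≤ r v Y → B.card + r v A ≤ A.card + r v B → False := by
      intro A B hA hB nA nB hAB hν
      have cAB : B.card + A.card = Y.card := hB ▸ Finset.card_sdiff_add_card_eq_card hA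
      have hAZ := hA.trans hYZ
      have sA : r v A + r v (Z \ A) ≤ r v Z := by
        have e : Z \ A = B ∪ (Z \ Y) := by
          ext x
          have := @hA x
          have := @hYZ x
          simp only [hB, Finset.mem_sdiff, Finset.mem_union]
          tauto
        have := r_union_le v B (Z \ Y)
        rw [e]
        omega
      have pB := nB.card_pos
      have mA : ¬Z.card + 2 * r v A ≤ 2 * A.card + r v Z := fun h => by
        have := hmin A ⟨hAZ, sA, h⟩
        omega
      have cA := Finset.card_sdiff_add_card_eq_card hAZ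
      have lA := hle A hAZ
      have uY : r v Y ≤ r v A + r v B := by
        have := r_union_le v A (Y \ A)
        rwa [Finset.union_sdiff_of_subset hA, ← hB] at this
      by_cases hcase : (Z \ A).card ≤ r v A + r v (Z \ A)
      · obtain ⟨M, hM⟩ := success h0 hZ hfl hAZ (hd A hAZ sA) (by omega) hcase
        exact hno M (by omega)
      · have := hH A (hAZ.trans hZ) (Z \ A) (Finset.sdiff_subset.trans hZ) (hd A hAZ sA)
          (by omega) (by omega)
        omega
    intro A hA nA hne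
    by_contra hcon
    simp only [rk_bot, finrank_bot, add_zero, not_lt] at hcon
    have nB : (Y \ A).Nonempty := Finset.sdiff_nonempty.2 fun h => hne (hA.antisymm h)
    by_cases hν : (Y \ A).card + r v A ≤ A.card + r v (Y \ A)
    · exact main A _ hA rfl nA nB hcon hν
    · exact main (Y \ A) A Finset.sdiff_subset (Finset.sdiff_sdiff_eq_self hA).symm nB nA
        (by omega) (by omega)

/-- no two skew large sets -/
theorem no_heavy_pair {v : ι → U} {E X Y : Finset ι} (h0 : ∀ e ∈ E, v e ≠ 0) (hH : Hyp v E)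
    (hX : X ⊆ E) (hY : Y ⊆ E) (hd : Disjoint (sp v X) (sp v Y)) (hN : 0 < finrank ℝ U)
    (h1 : finrank ℝ U ≤ X.card) (h2 : finrank ℝ U ≤ Y.card) : False := by
  have a1 := (disj_iff v X Y).1 hd
  have a2 : r v (X ∪ Y) ≤ finrank ℝ U := Submodule.finrank_le _
  obtain ⟨x, hx⟩ := Finset.card_pos.1 (hN.trans_le h1)
  obtain ⟨y, hy⟩ := Finset.card_pos.1 (hN.trans_le h2)
  have a3 := r_pos hx (h0 x (hX hx))
  have a4 := r_pos hy (h0 y (hY hy))
  have a5 := hH X hX Y hY hd (by omega) (by omega)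
  have a6 := hH Y hY X hX hd.symm (by omega) (by omega)
  omega

end Pool.Agent.P.MP_ed12bb_co.G
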