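import Pool.Agent.P.MP_ed12bb_co.G.Davis

/-!
Hilbert functions of finite sets of points in the affine plane and the numerical property of
pairs of sets imposing complementary conditions.
-/

namespace Pool.Agent.P.MP_ed12bb_co.G

open Polynomial Module Submodule

/-- points of the affine plane -/
abbrev Pt := Fin 2 → ℝ

/-- the vanishing ideal -/
noncomputable def IQ (Q : Finset Pt) : Ideal A := ⨅ q ∈ Q, RingHom.ker (MvPolynomial.eval q)

theorem mem_IQ {Q : Finset Pt} {F : A} : F ∈ IQ Q ↔ ∀ q ∈ Q, MvPolynomial.eval q F = 0 := by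
  simp [IQ]

/-- evaluation on a finite set -/
noncomputable def ev (Q : Finset Pt) : A →ₗ[ℝ] (Q → ℝ) where
  toFun F q := MvPolynomial.eval q.1 F
  map_add' F G := by ext; simp
  map_smul' c F := by ext; simp

theorem ev_apply (Q : Finset Pt) (F : A) (q : Q) : ev Q F q = MvPolynomial.eval q.1 F := rfl

theorem ker_ev (Q : Finset Pt) : LinearMap.ker (ev Q) = (IQ Q).restrictScalars ℝ := by
  ext F
  simp [mem_IQ, funext_iff, ev_apply]

/-- the Hilbert function, shifted by one -/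
noncomputable def hf (Q : Finset Pt) (t : ℕ) : ℕ := finrank ℝ ((D t).map (ev Q))

/-- its first difference -/
noncomputable def δ (Q : Finset Pt) (t : ℕ) : ℕ := t + 1 - finrank ℝ (J (IQ Q) t)

theorem hf_add (Q : Finset Pt) (t : ℕ) : hf Q t + finrank ℝ (It (IQ Q) t) = finrank ℝ (D t) := by
  have := finrank_map_add (ev Q) (D t)
  rwa [ker_ev] at this

theorem δ_add (Q : Finset Pt) (t : ℕ) : δ Q t + finrank ℝ (J (IQ Q) t) = t + 1 := by
  have := finrank_J_le (IQ Q) t
  unfold δ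
  omega

theorem hf_succ (Q : Finset Pt) (t : ℕ) : hf Q (t + 1) = hf Q t + δ Q t := by
  have h1 := hf_add Q t
  have h2 := hf_add Q (t + 1)
  have h3 := finrank_It_succ (IQ Q) t
  have h4 := finrank_D_succ t
  have h5 := δ_add Q t
  omega

theorem δ_succ (Q : Finset Pt) (t : ℕ) : δ Q t = t + 1 ∨ δ Q (t + 1) ≤ δ Q t := by
  have h1 := δ_add Q t
  have h2 := δ_add Q (t + 1)
  by_cases h : J (IQ Q) t = ⊥
  · rw [h, finrank_bot] at h1
    omega
  · have := finrank_J_lt h
    omega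

theorem hf_le (Q : Finset Pt) (t : ℕ) : hf Q t ≤ Q.card := by
  simpa [hf] using Submodule.finrank_le ((D t).map (ev Q))

theorem exists_sep (Q : Finset Pt) (q : Pt) : ∃ F : A, MvPolynomial.eval q F ≠ 0 ∧
    ∀ p ∈ Q, p ≠ q → MvPolynomial.eval p F = 0 := by
  classical
  have h : ∀ p : Pt, ∃ F : A, p ≠ q → MvPolynomial.eval q F ≠ 0 ∧ MvPolynomial.eval p F = 0 := by
    intro p
    by_cases hp : p = q
    · exact ⟨0, fun h => absurd hp h⟩
    · obtain ⟨i, hi⟩ := Function.ne_iff.1 hp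
      exact ⟨MvPolynomial.X i - MvPolynomial.C (p i), fun _ => by simp [sub_eq_zero, hi.symm]⟩
  choose f hf using h
  refine ⟨∏ p ∈ Q.erase q, f p, ?_, fun p hp hne => ?_⟩
  · rw [map_prod]
    exact Finset.prod_ne_zero_iff.2 fun p hp => (hf p (Finset.ne_of_mem_erase hp)).1
  · rw [map_prod]
    exact Finset.prod_eq_zero (Finset.mem_erase.2 ⟨hne, hp⟩) (hf p hne).2

theorem exists_hf_eq (Q : Finset Pt) : ∃ n, ∀ m, n ≤ m → hf Q m = Q.card := by
  classical
  choose f hf1 hf2 using exists_sep Q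
  choose g hg using exists_D
  refine ⟨Q.sup fun q => g (f q), fun m hm => ?_⟩
  have : (D m).map (ev Q) = ⊤ := by
    rw [eq_top_iff, ← (Pi.basisFun ℝ Q).span_eq, span_le]
    rintro _ ⟨q, rfl⟩
    refine (smul_mem_iff _ (hf1 q)).1 ⟨f q, D_mono ((Finset.le_sup (f := fun q => g (f q))
      q.2).trans hm) (hg _), ?_⟩
    ext p
    by_cases h : p = q
    · simp [h, ev_apply]
    · simp [h, ev_apply, hf2 q p p.2 fun e => h (Subtype.ext e)]
  rw [hf, this]
  simp

theorem hf_lower (Q : Finset Pt) (n : ℕ) :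
    ∀ a, a ≤ δ Q n → a + 2 * a * (n + 1) ≤ 2 * hf Q (n + 1) + a * a := by
  induction n with
  | zero =>
    intro a ha
    have h1 := hf_succ Q 0
    have h2 := δ_add Q 0
    obtain rfl | rfl : a = 0 ∨ a = 1 := by omega
    · simp
    · omega
  | succ n ih =>
    intro a ha
    have h1 := hf_succ Q (n + 1)
    have h2 := δ_add Q (n + 1)
    by_cases h : a ≤ δ Q n
    · have := ih a h
      nlinarith
    · rcases δ_succ Q n with h3 | h3
      · have := ih (n + 1) h3.ge
        obtain rfl : a = n + 2 := by omega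
        nlinarith
      · omega

theorem hf_upper (Q : Finset Pt) (d : ℕ)
    (h : ∀ t, d ≤ t → δ Q (t + 1) < δ Q t ∨ δ Q (t + 1) = 0) :
    2 * Q.card + δ Q d ≤ 2 * hf Q (d + 1) + δ Q d * δ Q d := by
  have key : ∀ k, 2 * hf Q (d + k + 1) + δ Q (d + k) * δ Q (d + k) + δ Q d ≤
      2 * hf Q (d + 1) + δ Q d * δ Q d + δ Q (d + k) := by
    intro k
    induction k with
    | zero => simp
    | succ k ih =>
      have h1 := hf_succ Q (d + k + 1)
      rw [← add_assoc, h1]
      rcases h (d + k) (by omega) with h2 | h2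
      · obtain ⟨c, hc⟩ := Nat.exists_eq_add_of_lt h2
        rw [hc] at ih
        nlinarith
      · rw [h2]
        nlinarith [Nat.le_mul_self (δ Q (d + k))]
  obtain ⟨n, hn⟩ := exists_hf_eq Q
  have h1 := key n
  rw [hn _ (by omega)] at h1
  nlinarith [Nat.le_mul_self (δ Q (d + n))]

theorem δ_pos {Q : Finset Pt} {d : ℕ} (h : hf Q (d + 1) < Q.card) : 0 < δ Q d := by
  by_contra hn
  have h0 : ∀ k, δ Q (d + k) = 0 := by
    intro k
    induction k with
    | zero => simpa using hn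
    | succ k ih =>
      have := δ_succ Q (d + k)
      rw [← add_assoc]
      omega
  have := hf_upper Q d fun t ht => Or.inr (by
    obtain ⟨k, rfl⟩ := Nat.exists_eq_add_of_le ht
    exact h0 (k + 1))
  have h1 := h0 0
  rw [add_zero] at h1
  rw [h1] at this
  omega

theorem δ_add_le {X Y : Finset Pt} {d : ℕ}
    (hs : D (d + 1) ≤ It (IQ X) (d + 1) ⊔ It (IQ Y) (d + 1)) : δ X d + δ Y d ≤ d + 1 := by
  have h1 : degreeLT ℝ (d + 1) ≤ J (IQ X) d ⊔ J (IQ Y) d := by
    rw [← map_top, J, J, ← Submodule.map_sup]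
    exact map_mono hs
  have h2 := Submodule.finrank_mono h1
  have h3 := finrank_sup_add_finrank_inf_eq (J (IQ X) d) (J (IQ Y) d)
  have h4 := δ_add X d
  have h5 := δ_add Y d
  rw [finrank_degLT] at h2
  omega

theorem δ_strict {X Y : Finset Pt} {d : ℕ}
    (hs : D (d + 1) ≤ It (IQ X) (d + 1) ⊔ It (IQ Y) (d + 1)) (hY : hf Y (d + 1) < Y.card)
    (t : ℕ) (ht : d ≤ t) : δ X (t + 1) < δ X t ∨ δ X (t + 1) = 0 := by
  have h1 := δ_pos hY
  have h2 := δ_add_le hs
  have h3 := δ_add X d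
  have h4 : J (IQ X) t ≠ ⊥ := fun h => by
    have := Submodule.finrank_mono (monotone_nat_of_le_succ (J_mono (IQ X)) ht)
    rw [h, finrank_bot] at this
    omega
  have h5 := finrank_J_lt h4
  have h6 := δ_add X t
  have h7 := δ_add X (t + 1)
  by_contra hn
  obtain ⟨H, hH, hd⟩ := davis h4 (by omega) (by omega)
  have h8 : (D (d + 1)).map (ev Y) ≤ ((D d).map (ev Y)).map (LinearMap.mulLeft ℝ (ev Y H)) := by
    rintro _ ⟨F, hF, rfl⟩
    obtain ⟨F1, a1, F2, a2, rfl⟩ := mem_sup.1 (hs hF)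
    obtain ⟨G, rfl⟩ := hd F1 ⟨D_mono (by omega) a1.1, a1.2⟩
    refine ⟨_, ⟨G, mem_D_of_mul a1.1 hH, rfl⟩, ?_⟩
    ext q
    simp [ev_apply, mem_IQ.1 a2.2 q q.2]
  have h9 := (Submodule.finrank_mono h8).trans (Submodule.finrank_map_le _ _)
  have h10 := hf_succ Y d
  unfold hf at h10
  omega

theorem skew_num {X Y : Finset Pt} {d : ℕ}
    (hs : D (d + 1) ≤ It (IQ X) (d + 1) ⊔ It (IQ Y) (d + 1)) (hX : hf X (d + 1) < X.card)
    (hY : hf X (d + 1) + hf Y (d + 1) ≤ Y.card) : 3 * X.card < 4 * hf X (d + 1) := by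
  have a0 := δ_pos hX
  have s0 := hf_succ X d
  have hY' : hf Y (d + 1) < Y.card := by omega
  have s1 := δ_add_le hs
  have l1 := hf_lower X d _ le_rfl
  have u1 := hf_upper X d (δ_strict hs hY')
  have u2 := hf_upper Y d (δ_strict (sup_comm (It (IQ X) (d + 1)) _ ▸ hs) hX)
  generalize δ X d = a at *
  generalize δ Y d = b at *
  have e1 : a + a * a + 2 * a * b ≤ 2 * hf X (d + 1) := by nlinarith
  have e2 : 2 * a ≤ b := by
    by_contra hn
    nlinarith
  nlinarith

end Pool.Agent.P.MP_ed12bb_co.G
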