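import Pool.Agent.P.MP_ed12bb_co.G.Vertex

/-!
A connected configuration has an interior vertex.
-/

namespace Pool.Agent.P.MP_ed12bb_co.G

open Submodule Module

variable {U : Type*} [AddCommGroup U] [Module ℝ U] {ι : Type*} [DecidableEq ι]
  [FiniteDimensional ℝ U]

/-- a vertex in the relative interior of the convex hull of all vertices -/
def Inner (v : ι → U) (lam : U) (L : Submodule ℝ U) (H : Finset ι) (φ : Dual ℝ U) : Prop :=
  Vx v lam L H φ ∧ ∀ J : U, (∀ ψ, Vx v lam L H ψ → 0 ≤ ψ J) → φ J = 0 → J ∈ L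

/-- an element taking both signs on vertices -/
def Both (v : ι → U) (lam : U) (L : Submodule ℝ U) (H : Finset ι) (y : U) : Prop :=
  ∃ ψ χ, Vx v lam L H ψ ∧ Vx v lam L H χ ∧ ψ y * χ y < 0

omit [FiniteDimensional ℝ U] in
theorem both_of_inner {v : ι → U} {lam : U} {L : Submodule ℝ U} {H : Finset ι} {φ : Dual ℝ U}
    (h : Inner v lam L H φ) {y : U} (h0 : φ y = 0) (hy : y ∉ L) : Both v lam L H y := by
  have h1 : ∃ ψ, Vx v lam L H ψ ∧ ψ y < 0 := by
    by_contra hc
    push Not at hc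
    exact hy (h.2 y hc h0)
  have h2 : ∃ ψ, Vx v lam L H ψ ∧ 0 < ψ y := by
    by_contra hc
    push Not at hc
    refine hy (L.neg_mem_iff.1 (h.2 (-y) (fun ψ hψ => ?_) (by simp [h0])))
    simpa using hc ψ hψ
  obtain ⟨ψ, a, b⟩ := h1
  obtain ⟨χ, c, d⟩ := h2
  exact ⟨ψ, χ, a, c, mul_neg_of_neg_of_pos b d⟩

/-- the rank two case -/
theorem both_rank_two {v : ι → U} {lam : U} {L : Submodule ℝ U} {H : Finset ι}
    (ht : L ⊔ sp v H = ⊤) (hc : Conn v L H) (hL : ∀ y, L ⊔ (ℝ ∙ y) ≠ ⊤) (hH : H.Nonempty)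
    (f : ι → Dual ℝ U) (hf : ∀ e ∈ H, Vx v lam L H (f e) ∧ f e (v e) = 0 ∧
      LinearMap.ker (f e) ≤ L ⊔ (ℝ ∙ v e)) : ∃ y ∈ H, Both v lam L H (v y) := by
  classical
  obtain ⟨b, hb⟩ := hH
  obtain ⟨b', hb', hP⟩ := Vx.exists_ne (hf b hb).1.one (hf b hb).1.le ht
  have sym : ∀ e ∈ H, ∀ e' ∈ H, f e (v e') ≠ 0 → f e' (v e) ≠ 0 := by
    intro e he e' he' h h'
    have : f e = f e' := eq_of_ker_le (hf e he).1.one (hf e' he').1.one
      ((hf e he).2.2.trans (sup_le (hf e' he').1.le ((span_singleton_le_iff_mem _ _).2 h')))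
    exact h (this ▸ (hf e' he').2.1)
  have hrk : ∀ e ∈ H, ∀ A : Finset ι, (∀ x ∈ A, f e (v x) = 0) →
      rk v L A ≤ finrank ℝ L + 1 := by
    intro e he A hA
    have h1 : L ⊔ sp v A ≤ L ⊔ sp v {e} := by
      rw [sp_singleton]
      exact sup_le le_sup_left ((sp_le.2 hA).trans (hf e he).2.2)
    exact (Submodule.finrank_mono h1).trans (by simpa [rk] using rk_le_add v L {e})
  obtain ⟨x, hx, hx1, hx2⟩ : ∃ x ∈ H, f b (v x) ≠ 0 ∧ f b' (v x) ≠ 0 := by
    by_contra hn
    push Not at hn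
    have h1 := hc (zs v H (f b)) (zs_subset _ _ _) ⟨b, mem_zs.2 ⟨hb, (hf b hb).2.1⟩⟩
      (fun h => hP (mem_zs.1 (h.symm ▸ hb' : b' ∈ zs v H (f b))).2)
    have h2 := hrk b hb (zs v H (f b)) fun x hx => (mem_zs.1 hx).2
    have h3 := hrk b' hb' (H \ zs v H (f b)) fun x hx => by
      rw [Finset.mem_sdiff, mem_zs] at hx
      exact hn x hx.1 fun h => hx.2 ⟨hx.1, h⟩
    have h4 : rk v L H = finrank ℝ U := by rw [rk, ht, finrank_top]
    have h5 := Module.Dual.finrank_ker_add_one_of_ne_zero (f := f b) (fun h => by simp [h] at hP)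
    have h6 : finrank ℝ L < finrank ℝ (LinearMap.ker (f b)) := by
      refine Submodule.finrank_lt_finrank_of_lt (lt_of_le_of_ne (hf b hb).1.le fun h => ?_)
      exact hL (v b') (h ▸ ker_sup_eq_top hP)
    omega
  have hQ := sym b hb b' hb' hP
  have hR := sym b hb x hx hx1
  have hS := sym b' hb' x hx hx2
  have hm : v x - (f b (v x) / f b (v b')) • v b' ∈ L ⊔ (ℝ ∙ v b) :=
    (hf b hb).2.2 (by simp [hP])
  obtain ⟨l, hl, z, hz, hsum⟩ := mem_sup.1 hm
  obtain ⟨a, rfl⟩ := mem_span_singleton.1 hz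
  set a' := f b (v x) / f b (v b') with ha'
  have hx' : v x = l + a • v b + a' • v b' := by rw [hsum]; abel
  have z1 : f b l = 0 := (hf b hb).1.le hl
  have z2 : f b' l = 0 := (hf b' hb').1.le hl
  have z3 : f x l = 0 := (hf x hx).1.le hl
  have e1 : f b (v x) = a' * f b (v b') := by rw [hx']; simp [z1, (hf b hb).2.1]
  have e2 : f b' (v x) = a * f b' (v b) := by rw [hx']; simp [z2, (hf b' hb').2.1]
  have e3 : a * f x (v b) + a' * f x (v b') = 0 := by
    have := (hf x hx).2.1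
    rw [hx'] at this
    simpa [z3] using this
  have ha : a ≠ 0 := fun h => hx2 (by rw [e2, h, zero_mul])
  by_contra hn
  push Not at hn
  have n1 : 0 ≤ f b' (v b) * f x (v b) := not_lt.1 fun h =>
    hn b hb ⟨_, _, (hf b' hb').1, (hf x hx).1, h⟩
  have n2 : 0 ≤ f b (v b') * f x (v b') := not_lt.1 fun h =>
    hn b' hb' ⟨_, _, (hf b hb).1, (hf x hx).1, h⟩
  have n3 : 0 ≤ f b (v x) * f b' (v x) := not_lt.1 fun h =>
    hn x hx ⟨_, _, (hf b hb).1, (hf b' hb').1, h⟩
  have n4 := mul_nonneg (mul_nonneg n1 n2) n3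
  rw [e1, e2] at n4
  have e4 : a' * f x (v b') = -(a * f x (v b)) := by linarith
  have n5 : f b' (v b) * f x (v b) * (f b (v b') * f x (v b')) *
      (a' * f b (v b') * (a * f b' (v b))) =
      -(f b (v b') * f b' (v b) * (a * f x (v b))) ^ 2 := by
    calc _ = (f b (v b') * f b' (v b)) ^ 2 * (a * f x (v b)) * (a' * f x (v b')) := by ring
      _ = _ := by rw [e4]; ring
  have n6 : 0 < (f b (v b') * f b' (v b) * (a * f x (v b))) ^ 2 := by positivity
  linarith

theorem exists_inner (v : ι → U) (lam : U) : ∀ (n : ℕ) (H : Finset ι) (L : Submodule ℝ U),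
    H.card = n → L ≠ ⊤ → L ⊔ sp v H = ⊤ → Conn v L H → Gen v lam L H →
    ∃ φ, Inner v lam L H φ := by
  intro n
  induction n with
  | zero =>
    intro H L h0 hL ht
    rw [Finset.card_eq_zero.1 h0] at ht
    exact absurd (by simpa using ht) hL
  | succ n ih =>
    intro H L hn hL ht hc hg
    by_cases h1 : ∃ y, L ⊔ (ℝ ∙ y) = ⊤
    · obtain ⟨y, hy⟩ := h1
      obtain ⟨φ, hφ⟩ := exists_vx hL ht hg
      exact ⟨φ, hφ, fun J _ hJ => ker_le_of_sup hφ.one hφ.le hy hJ⟩
    push Not at h1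
    have hN : rk v L H = finrank ℝ U := by rw [rk, ht, finrank_top]
    have hel : ∀ e ∈ H, rk v L (H.erase e) = rk v L H ∧ rk v L {e} = finrank ℝ L + 1 := by
      intro e he
      have a1 := hc {e} (by simpa using he) (by simp) (fun h => h1 (v e) (by
        rw [← sp_singleton, h, ht]))
      rw [Finset.sdiff_singleton_eq_erase] at a1
      have a2 := rk_le v L (H.erase e)
      have a3 := rk_le_add v L {e}
      rw [Finset.card_singleton] at a3
      omega
    have hsp : ∀ e ∈ H, L ⊔ sp v (H.erase e) = ⊤ := fun e he =>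
      Submodule.eq_top_of_finrank_eq (((hel e he).1).trans hN)
    have hcard : ∀ e ∈ H, (H.erase e).card = n := fun e he => by
      rw [Finset.card_erase_of_mem he, hn]; rfl
    by_cases h2 : ∃ e ∈ H, Conn v L (H.erase e)
    · obtain ⟨e, he, hce⟩ := h2
      obtain ⟨φ, hφ, hin⟩ := ih _ L (hcard e he) hL (hsp e he) hce
        (hg.mono' (Finset.erase_subset _ _))
      exact ⟨φ, hφ.mono' (Finset.erase_subset _ _), fun J hJ h0 =>
        hin J (fun ψ hψ => hJ ψ (hψ.mono' (Finset.erase_subset _ _))) h0⟩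
    push Not at h2
    have hall : ∀ e ∈ H, ∃ φ, Inner v lam (L ⊔ sp v {e}) (H.erase e) φ := by
      intro e he
      refine ih _ _ (hcard e he) (by rw [sp_singleton]; exact h1 _) ?_
        ((tutte hc he (hel e he).1 (hel e he).2).resolve_left (h2 e he))
        (hg.mono (by simpa using he) (Finset.erase_subset _ _))
      rw [eq_top_iff, ← hsp e he]
      exact sup_le_sup_right le_sup_left _
    choose! f hf using hall
    have up : ∀ e ∈ H, ∀ ψ, Vx v lam (L ⊔ sp v {e}) (H.erase e) ψ → Vx v lam L H ψ :=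
      fun e he ψ hψ => hψ.mono (by simpa using he) (Finset.erase_subset _ _)
    have hboth : ∃ y ∈ H, Both v lam L H (v y) := by
      by_cases h3 : ∃ e ∈ H, ∃ y ∈ H, f e (v y) = 0 ∧ v y ∉ L ⊔ sp v {e}
      · obtain ⟨e, he, y, hy, h0, hne⟩ := h3
        obtain ⟨ψ, χ, a, b, c⟩ := both_of_inner (hf e he) h0 hne
        exact ⟨y, hy, ψ, χ, up e he ψ a, up e he χ b, c⟩
      push Not at h3
      refine both_rank_two ht hc h1 (Finset.card_pos.1 (by omega)) f fun e he =>
        ⟨up e he _ (hf e he).1, (hf e he).1.le (mem_sup_right (mem_sp v (by simp))), ?_⟩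
      rw [← sp_singleton]
      refine (hf e he).1.ker.trans (sup_le le_rfl (sp_le.2 fun y hy => ?_))
      exact h3 e he y (Finset.mem_of_mem_erase (mem_zs.1 hy).1) (mem_zs.1 hy).2
    obtain ⟨y, hy, ψ, χ, hψ, hχ, hneg⟩ := hboth
    refine ⟨f y, up y hy _ (hf y hy).1, fun J hJ h0 => ?_⟩
    have hm := (hf y hy).2 J (fun ψ hψ => hJ ψ (up y hy ψ hψ)) h0
    rw [sp_singleton] at hm
    obtain ⟨l, hl, z, hz, rfl⟩ := mem_sup.1 hm
    obtain ⟨c, rfl⟩ := mem_span_singleton.1 hz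
    have z1 : ψ l = 0 := hψ.le hl
    have z2 : χ l = 0 := hχ.le hl
    have p1 : 0 ≤ c * ψ (v y) := by simpa [z1] using hJ ψ hψ
    have p2 : 0 ≤ c * χ (v y) := by simpa [z2] using hJ χ hχ
    have p3 : c = 0 := by
      by_contra hc0
      have p4 := mul_nonneg p1 p2
      have p5 : 0 < c ^ 2 := by positivity
      nlinarith [mul_neg_of_pos_of_neg p5 hneg]
    simpa [p3] using hl

end Pool.Agent.P.MP_ed12bb_co.G
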