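import Mathlib

/-!
Real vector configurations modulo a subspace: ranks, connectivity, and vertices of the dual
affine arrangement.  Main result: a connected configuration has a vertex in the interior of the
convex hull of all vertices.
-/

namespace Pool.Agent.P.MP_ed12bb_co.G

open Submodule Module

variable {U : Type*} [AddCommGroup U] [Module ℝ U] {ι : Type*} [DecidableEq ι]

/-- span of the vectors indexed by a finite set -/
def sp (v : ι → U) (A : Finset ι) : Submodule ℝ U := span ℝ (v '' (A : Set ι))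

omit [DecidableEq ι] in
theorem sp_mono (v : ι → U) {A B : Finset ι} (h : A ⊆ B) : sp v A ≤ sp v B :=
  span_mono (Set.image_mono (by exact_mod_cast h))

omit [DecidableEq ι] in
theorem mem_sp (v : ι → U) {A : Finset ι} {e : ι} (h : e ∈ A) : v e ∈ sp v A :=
  subset_span ⟨e, h, rfl⟩

omit [DecidableEq ι] in
theorem sp_le {v : ι → U} {A : Finset ι} {M : Submodule ℝ U} :
    sp v A ≤ M ↔ ∀ e ∈ A, v e ∈ M := by
  simp [sp, span_le, Set.subset_def]

theorem sp_union (v : ι → U) (A B : Finset ι) : sp v (A ∪ B) = sp v A ⊔ sp v B := by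
  simp [sp, Set.image_union, span_union]

omit [DecidableEq ι] in
@[simp] theorem sp_empty (v : ι → U) : sp v ∅ = ⊥ := by simp [sp]

omit [DecidableEq ι] in
theorem sp_singleton (v : ι → U) (e : ι) : sp v {e} = ℝ ∙ v e := by simp [sp]

omit [DecidableEq ι] in
theorem finrank_sp_le (v : ι → U) (A : Finset ι) : finrank ℝ (sp v A) ≤ A.card := by
  classical
  have h := finrank_span_finset_le_card (R := ℝ) (A.image v)
  have e : sp v A = span ℝ ((A.image v : Finset U) : Set U) := by simp [sp]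
  rw [e]
  exact h.trans Finset.card_image_le

/-- the elements of a finite set on which a covector vanishes -/
noncomputable def zs (v : ι → U) (H : Finset ι) (φ : Dual ℝ U) : Finset ι := by
  classical exact H.filter fun e => φ (v e) = 0

omit [DecidableEq ι] in
theorem mem_zs {v : ι → U} {H : Finset ι} {φ : Dual ℝ U} {e : ι} :
    e ∈ zs v H φ ↔ e ∈ H ∧ φ (v e) = 0 := by simp [zs]

omit [DecidableEq ι] in
theorem zs_subset (v : ι → U) (H : Finset ι) (φ : Dual ℝ U) : zs v H φ ⊆ H :=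
  fun _ h => (mem_zs.1 h).1

omit [DecidableEq ι] in
theorem sp_zs_le (v : ι → U) (H : Finset ι) (φ : Dual ℝ U) :
    sp v (zs v H φ) ≤ LinearMap.ker φ := sp_le.2 fun _ h => (mem_zs.1 h).2

/-- rank together with a subspace -/
noncomputable def rk (v : ι → U) (L : Submodule ℝ U) (A : Finset ι) : ℕ :=
  finrank ℝ (L ⊔ sp v A : Submodule ℝ U)

/-- connectivity modulo a subspace -/
def Conn (v : ι → U) (L : Submodule ℝ U) (H : Finset ι) : Prop :=
  ∀ A ⊆ H, A.Nonempty → A ≠ H → rk v L H + finrank ℝ L < rk v L A + rk v L (H \ A)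

/-- vertices of the arrangement of H inside the annihilator of L -/
structure Vx (v : ι → U) (lam : U) (L : Submodule ℝ U) (H : Finset ι) (φ : Dual ℝ U) : Prop where
  one : φ lam = 1
  le : L ≤ LinearMap.ker φ
  ker : LinearMap.ker φ ≤ L ⊔ sp v (zs v H φ)

/-- the normalising vector is generic -/
def Gen (v : ι → U) (lam : U) (L : Submodule ℝ U) (H : Finset ι) : Prop :=
  ∀ R ⊆ H, L ⊔ sp v R ≠ ⊤ → lam ∉ L ⊔ sp v R

theorem eq_of_ker_le {φ ψ : Dual ℝ U} {lam : U} (h1 : φ lam = 1) (h2 : ψ lam = 1)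
    (h : LinearMap.ker φ ≤ LinearMap.ker ψ) : φ = ψ := by
  ext x
  have : x - φ x • lam ∈ LinearMap.ker φ := by simp [h1]
  have := h this
  simp only [LinearMap.mem_ker, map_sub, map_smul, h2, smul_eq_mul, mul_one] at this
  linarith

theorem exists_norm {M : Submodule ℝ U} {lam : U} (h : lam ∉ M) :
    ∃ φ : Dual ℝ U, φ lam = 1 ∧ M ≤ LinearMap.ker φ := by
  obtain ⟨φ, h1, h2⟩ := Submodule.exists_le_ker_of_notMem h
  refine ⟨(φ lam)⁻¹ • φ, by simp [h1], fun x hx => ?_⟩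
  have : φ x = 0 := h2 hx
  simp [this]

theorem ker_le_of_sup {φ : Dual ℝ U} {lam y : U} {M : Submodule ℝ U} (h1 : φ lam = 1)
    (hM : M ≤ LinearMap.ker φ) (ht : M ⊔ (ℝ ∙ y) = ⊤) : LinearMap.ker φ ≤ M := by
  have hy : φ y ≠ 0 := fun h => by
    have : (⊤ : Submodule ℝ U) ≤ LinearMap.ker φ := by
      rw [← ht]; exact sup_le hM ((span_singleton_le_iff_mem _ _).2 h)
    have := this (mem_top (x := lam))
    simp [h1] at this
  intro x hx
  have hx' : x ∈ M ⊔ (ℝ ∙ y) := ht ▸ mem_top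
  obtain ⟨m, hm, z, hz, rfl⟩ := mem_sup.1 hx'
  obtain ⟨c, rfl⟩ := mem_span_singleton.1 hz
  have h0 : φ m = 0 := hM hm
  have : c = 0 := by simpa [h0, hy] using hx
  simpa [this] using hm

theorem ker_sup_eq_top {φ : Dual ℝ U} {y : U} (hy : φ y ≠ 0) :
    LinearMap.ker φ ⊔ (ℝ ∙ y) = ⊤ := by
  refine eq_top_iff.2 fun x _ => mem_sup.2 ⟨x - (φ x / φ y) • y, ?_, (φ x / φ y) • y,
    smul_mem _ _ (mem_span_singleton_self y), by simp⟩
  simp [hy]

theorem Vx.mono {v : ι → U} {lam : U} {L : Submodule ℝ U} {H H' T : Finset ι} {φ : Dual ℝ U}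
    (h : Vx v lam (L ⊔ sp v T) H' φ) (hT : T ⊆ H) (hH : H' ⊆ H) : Vx v lam L H φ := by
  refine ⟨h.one, le_sup_left.trans h.le, h.ker.trans ?_⟩
  refine sup_le (sup_le le_sup_left (le_sup_of_le_right (sp_mono v fun e he => ?_)))
    (le_sup_of_le_right (sp_mono v fun e he => ?_))
  · exact mem_zs.2 ⟨hT he, h.le (mem_sup_right (mem_sp v he))⟩
  · exact mem_zs.2 ⟨hH (mem_zs.1 he).1, (mem_zs.1 he).2⟩

theorem Vx.mono' {v : ι → U} {lam : U} {L : Submodule ℝ U} {H H' : Finset ι} {φ : Dual ℝ U}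
    (h : Vx v lam L H' φ) (hH : H' ⊆ H) : Vx v lam L H φ :=
  Vx.mono (T := ∅) (by simpa using h) (Finset.empty_subset _) hH

theorem Gen.mono {v : ι → U} {lam : U} {L : Submodule ℝ U} {H H' T : Finset ι}
    (h : Gen v lam L H) (hT : T ⊆ H) (hH : H' ⊆ H) : Gen v lam (L ⊔ sp v T) H' := by
  intro R hR
  rw [sup_assoc, ← sp_union]
  exact h _ (Finset.union_subset hT (hR.trans hH))

omit [DecidableEq ι] in
theorem Gen.mono' {v : ι → U} {lam : U} {L : Submodule ℝ U} {H H' : Finset ι}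
    (h : Gen v lam L H) (hH : H' ⊆ H) : Gen v lam L H' := fun R hR => h R (hR.trans hH)

omit [DecidableEq ι] in
theorem Vx.exists_ne {v : ι → U} {lam : U} {L : Submodule ℝ U} {H : Finset ι} {φ : Dual ℝ U}
    (h1 : φ lam = 1) (h2 : L ≤ LinearMap.ker φ) (ht : L ⊔ sp v H = ⊤) :
    ∃ e ∈ H, φ (v e) ≠ 0 := by
  by_contra hc
  push Not at hc
  have : (⊤ : Submodule ℝ U) ≤ LinearMap.ker φ := by
    rw [← ht]; exact sup_le h2 (sp_le.2 hc)
  have := this (mem_top (x := lam))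
  simp [h1] at this

omit [DecidableEq ι] in
theorem vx_finite (v : ι → U) (lam : U) (L : Submodule ℝ U) (H : Finset ι) :
    {φ | Vx v lam L H φ}.Finite := by
  refine Set.Finite.of_injOn (f := fun φ => zs v H φ) (t := (H.powerset : Set (Finset ι)))
    (fun φ _ => by simpa using zs_subset v H φ) ?_ (Finset.finite_toSet _)
  intro φ hφ ψ hψ h
  refine eq_of_ker_le hφ.one hψ.one (hφ.ker.trans (sup_le hψ.le ?_))
  simp only at h
  rw [h]
  exact sp_zs_le v H ψ

omit [DecidableEq ι] in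
theorem exists_vx {v : ι → U} {lam : U} {L : Submodule ℝ U} {H : Finset ι} (hL : L ≠ ⊤)
    (ht : L ⊔ sp v H = ⊤) (hg : Gen v lam L H) : ∃ φ, Vx v lam L H φ := by
  classical
  obtain ⟨R, hR, hmax⟩ := Finset.exists_max_image
    (H.powerset.filter fun R => L ⊔ sp v R ≠ ⊤) Finset.card ⟨∅, by simpa using hL⟩
  obtain ⟨hRH, hRt⟩ := Finset.mem_filter.1 hR
  rw [Finset.mem_powerset] at hRH
  obtain ⟨φ, h1, h2⟩ := exists_norm (hg R hRH hRt)
  obtain ⟨e, he, hne⟩ := Vx.exists_ne h1 (le_sup_left.trans h2) ht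
  have heR : e ∉ R := fun h => hne (h2 (mem_sup_right (mem_sp v h)))
  have htop : L ⊔ sp v R ⊔ (ℝ ∙ v e) = ⊤ := by
    by_contra hc
    have := hmax (R ∪ {e}) (Finset.mem_filter.2 ⟨Finset.mem_powerset.2
      (Finset.union_subset hRH (by simpa using he)),
      by rwa [sp_union, sp_singleton, ← sup_assoc]⟩)
    rw [Finset.card_union_of_disjoint (by simpa using heR)] at this
    simp at this
  refine ⟨φ, h1, le_sup_left.trans h2, (ker_le_of_sup h1 h2 htop).trans ?_⟩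
  exact sup_le_sup_left (sp_mono v fun x hx => mem_zs.2 ⟨hRH hx,
    h2 (mem_sup_right (mem_sp v hx))⟩) _

variable [FiniteDimensional ℝ U]

omit [DecidableEq ι] in
theorem rk_mono (v : ι → U) (L : Submodule ℝ U) {A B : Finset ι} (h : A ⊆ B) :
    rk v L A ≤ rk v L B := Submodule.finrank_mono (sup_le_sup_left (sp_mono v h) _)

omit [DecidableEq ι] in
theorem rk_le (v : ι → U) (L : Submodule ℝ U) (A : Finset ι) : rk v L A ≤ finrank ℝ U :=
  Submodule.finrank_le _

theorem rk_submod (v : ι → U) (L : Submodule ℝ U) (A B : Finset ι) :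
    rk v L (A ∪ B) + rk v L (A ∩ B) ≤ rk v L A + rk v L B := by
  unfold rk
  rw [← finrank_sup_add_finrank_inf_eq (L ⊔ sp v A) (L ⊔ sp v B), sp_union,
    ← sup_sup_distrib_left]
  gcongr
  exact Submodule.finrank_mono (le_inf (sup_le_sup_left (sp_mono v Finset.inter_subset_left) _)
    (sup_le_sup_left (sp_mono v Finset.inter_subset_right) _))

omit [FiniteDimensional ℝ U] in
theorem rk_sup (v : ι → U) (L : Submodule ℝ U) (A T : Finset ι) :
    rk v (L ⊔ sp v T) A = rk v L (A ∪ T) := by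
  unfold rk
  rw [sp_union, sup_assoc, sup_comm (sp v T)]

omit [DecidableEq ι] in
theorem rk_le_add (v : ι → U) (L : Submodule ℝ U) (A : Finset ι) :
    rk v L A ≤ finrank ℝ L + A.card := by
  have := finrank_sup_add_finrank_inf_eq L (sp v A)
  have := finrank_sp_le v A
  unfold rk
  omega

/-- deletion or contraction of an element keeps connectivity -/
theorem tutte {v : ι → U} {L : Submodule ℝ U} {H : Finset ι} {e : ι} (hc : Conn v L H)
    (he : e ∈ H) (h1 : rk v L (H.erase e) = rk v L H) (h2 : rk v L {e} = finrank ℝ L + 1) :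
    Conn v L (H.erase e) ∨ Conn v (L ⊔ sp v {e}) (H.erase e) := by
  by_contra hn
  simp only [Conn, not_or, not_forall, not_lt] at hn
  obtain ⟨⟨A, hA, hA0, hA1, hAr⟩, ⟨B, hB, hB0, hB1, hBr⟩⟩ := hn
  set H' := H.erase e with hH'
  have hHe : H' ∪ {e} = H := by
    rw [hH', Finset.union_comm, ← Finset.insert_eq, Finset.insert_erase he]
  have h3 : finrank ℝ (L ⊔ sp v {e} : Submodule ℝ U) = finrank ℝ L + 1 := h2
  rw [rk_sup, rk_sup, rk_sup, hHe, h3] at hBr
  rw [h1] at hAr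
  have key : ∀ A1 A2 B1 B2 : Finset ι, A1 ⊆ H' → B1 ⊆ H' → A2 = H' \ A1 → B2 = H' \ B1 →
      (A1 ∩ B1).Nonempty →
      rk v L H + finrank ℝ L < rk v L (A1 ∩ B1) + rk v L (A2 ∪ (B2 ∪ {e})) := by
    intro A1 A2 B1 B2 a1 b1 a2 b2 hne
    have hsub : A1 ∩ B1 ⊆ H := (Finset.inter_subset_left.trans a1).trans (Finset.erase_subset _ _)
    have := hc _ hsub hne (fun h => by
      have : e ∈ A1 := Finset.inter_subset_left (h ▸ he : e ∈ A1 ∩ B1)
      simpa [hH'] using a1 this)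
    refine this.trans_le (Nat.add_le_add_left (rk_mono v L fun x hx => ?_) _)
    simp only [a2, b2, hH', Finset.mem_sdiff, Finset.mem_inter, Finset.mem_union,
      Finset.mem_erase, Finset.mem_singleton] at hx ⊢
    tauto
  have sub : ∀ A1 B1 : Finset ι, A1 ⊆ H' →
      rk v L (A1 ∪ (B1 ∪ {e})) + rk v L (A1 ∩ B1) ≤ rk v L A1 + rk v L (B1 ∪ {e}) := by
    intro A1 B1 a1
    refine le_trans (Nat.add_le_add_left (rk_mono v L ?_) _) (rk_submod v L A1 (B1 ∪ {e}))
    exact Finset.inter_subset_inter_left Finset.subset_union_left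
  have dA : A = H' \ (H' \ A) := (Finset.sdiff_sdiff_eq_self hA).symm
  have dB : B = H' \ (H' \ B) := (Finset.sdiff_sdiff_eq_self hB).symm
  have c1 : ¬((A ∩ B).Nonempty ∧ ((H' \ A) ∩ (H' \ B)).Nonempty) := fun ⟨n1, n2⟩ => by
    have k1 := key A _ B _ hA hB rfl rfl n1
    have k2 := key _ A _ B Finset.sdiff_subset Finset.sdiff_subset dA dB n2
    have s1 := sub A B hA
    have s2 := sub (H' \ A) (H' \ B) Finset.sdiff_subset
    omega
  have c2 : ¬((A ∩ (H' \ B)).Nonempty ∧ ((H' \ A) ∩ B).Nonempty) := fun ⟨n1, n2⟩ => by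
    have k1 := key A _ (H' \ B) B hA Finset.sdiff_subset rfl dB n1
    have k2 := key _ A B _ Finset.sdiff_subset hB dA rfl n2
    have s1 := sub A (H' \ B) hA
    have s2 := sub (H' \ A) B Finset.sdiff_subset
    omega
  obtain ⟨a, ha⟩ := hA0
  obtain ⟨b, hb⟩ := hB0
  obtain ⟨a', ha1, ha2⟩ := Finset.exists_of_ssubset (Finset.ssubset_iff_subset_ne.2 ⟨hA, hA1⟩)
  obtain ⟨b', hb1, hb2⟩ := Finset.exists_of_ssubset (Finset.ssubset_iff_subset_ne.2 ⟨hB, hB1⟩)
  have mi : ∀ {x : ι} {S T : Finset ι}, x ∈ S → x ∈ T → (S ∩ T).Nonempty :=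
    fun h1 h2 => ⟨_, Finset.mem_inter.2 ⟨h1, h2⟩⟩
  have ms : ∀ {x : ι} {S : Finset ι}, x ∈ H' → x ∉ S → x ∈ H' \ S :=
    fun h1 h2 => Finset.mem_sdiff.2 ⟨h1, h2⟩
  by_cases q1 : a ∈ B
  · by_cases q2 : a' ∈ B
    · by_cases q3 : b' ∈ A
      · exact c2 ⟨mi q3 (ms hb1 hb2), mi (ms ha1 ha2) q2⟩
      · exact c1 ⟨mi ha q1, mi (ms hb1 q3) (ms hb1 hb2)⟩
    · exact c1 ⟨mi ha q1, mi (ms ha1 ha2) (ms ha1 q2)⟩
  · by_cases q2 : a' ∈ B
    · exact c2 ⟨mi ha (ms (hA ha) q1), mi (ms ha1 ha2) q2⟩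
    · by_cases q3 : b ∈ A
      · exact c1 ⟨mi q3 hb, mi (ms ha1 ha2) (ms ha1 q2)⟩
      · exact c2 ⟨mi ha (ms (hA ha) q1), mi (ms (hB hb) q3) hb⟩

end Pool.Agent.P.MP_ed12bb_co.G
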